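import Pool.Agent.H655.UR.Base

/-! The reduction. -/

namespace Pool.Agent.H655.UR

open Set TopologicalSpace
open scoped ENNReal

instance : BorelSpace Met := ⟨rfl⟩

/-- The closed set coding a metric. -/
def AA {U : Type} [MetricSpace U] (pt : BB → U) (f : Met) : Closeds U :=
  ⟨closure (pt '' SS f), isClosed_closure⟩

theorem AA_meas {U : Type} [MetricSpace U] (pt : BB → U) :
    @Measurable Met (Closeds U) _ (effros U) (AA pt) := by
  apply @measurable_generateFrom Met (Closeds U) _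
  rintro _ ⟨V, hV, rfl⟩
  have e : (AA pt) ⁻¹' {F : Closeds U | ((F : Set U) ∩ V).Nonempty} =
      ⋃ b : {b : BB // pt b ∈ V}, {f : Met | b.1 ∈ SS f} := by
    ext f
    simp only [mem_preimage, mem_setOf_eq, mem_iUnion, Subtype.exists, exists_prop]
    constructor
    · rintro ⟨x, hx, hxV⟩
      have hx' : x ∈ closure (pt '' SS f) := hx
      obtain ⟨y, hyV, ⟨b, hb, rfl⟩⟩ := mem_closure_iff.1 hx' V hV hxV
      exact ⟨b, hyV, hb⟩
    · rintro ⟨b, hbV, hb⟩
      exact ⟨pt b, subset_closure ⟨b, hb, rfl⟩, hbV⟩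
  rw [e]
  have hev : ∀ n m : ℕ, Continuous fun f : Met => f.1 n m := fun n m =>
    (continuous_apply m).comp ((continuous_apply n).comp continuous_subtype_val)
  have ho : IsOpen (⋃ b : {b : BB // pt b ∈ V}, {f : Met | b.1 ∈ SS f}) := by
    refine isOpen_iUnion fun b => ?_
    rcases b with ⟨a | ⟨a, b, s⟩, hb⟩
    · have : {f : Met | (Sum.inl a : BB) ∈ SS f} = univ := by
        ext f; simp [inl_SS]
      rw [this]
      exact isOpen_univ
    · exact isOpen_lt (hev a.1 b.1) continuous_const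
  exact ho.measurableSet

/-- From a permutation to the orbit pseudometric. -/
theorem orb_le {U : Type} [MetricSpace U] (pt : BB → U)
    (hpt : ∀ b b', dist (pt b) (pt b') = ((dBB b b' : ℚ) : ℝ))
    (hext : ∀ σ : Equiv.Perm BB, (∀ b b', dBB (σ b) (σ b') = dBB b b') →
        ∃ h : U ≃ᵢ U, ∀ b, h (pt b) = pt (σ b))
    {f g : Met} {δ : ℝ} (hδ : 0 < δ) (σ : Equiv.Perm II)
    (hσ : ∀ a b : II, |f.1 a.1 b.1 - g.1 (σ a).1 (σ b).1| ≤ 2 * δ) :
    rhoOrb U (AA pt f) (AA pt g) ≤ ENNReal.ofReal (3 * δ) := by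
  obtain ⟨h, hh⟩ := hext (actB σ) (dBB_act σ)
  obtain ⟨r, hr1, hr2⟩ := exists_rat_btwn (show 2 * δ < 3 * δ by linarith)
  have hr0 : (0 : ℝ) < r := by linarith
  have hr0' : (0 : ℚ) < r := by exact_mod_cast hr0
  have hd : ∀ a b : II, ∀ s : ℚ, (0 : ℝ) < s →
      edist (pt (Sum.inr (a, b, s))) (pt (Sum.inr (a, b, s + r))) ≤ ENNReal.ofReal (3 * δ) := by
    intro a b s hs
    rw [edist_dist, hpt]
    apply ENNReal.ofReal_le_ofReal
    have hs' : (0 : ℚ) < s := by exact_mod_cast hs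
    have e : dBB (Sum.inr (a, b, s)) (Sum.inr (a, b, s + r)) = r := by
      simp only [dBB, and_self, if_true, zero_add]
      rw [abs_of_pos hs', abs_of_pos (by linarith : (0 : ℚ) < s + r)]
      rw [show s - (s + r) = -r by ring, abs_neg, abs_of_pos hr0']
    rw [e]
    exact hr2.le
  have key : Metric.hausdorffEDist (h '' (AA pt f : Set U)) (AA pt g : Set U) ≤
      ENNReal.ofReal (3 * δ) := by
    have e1 : h '' (AA pt f : Set U) = closure (h '' (pt '' SS f)) := by
      show h '' closure (pt '' SS f) = _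
      exact h.toHomeomorph.image_closure _
    rw [e1]
    show Metric.hausdorffEDist _ (closure (pt '' SS g)) ≤ _
    rw [Metric.hausdorffEDist_closure]
    apply Metric.hausdorffEDist_le_of_mem_edist
    · rintro _ ⟨_, ⟨b, hb, rfl⟩, rfl⟩
      rw [hh]
      rcases b with a | ⟨a, b, s⟩
      · exact ⟨_, ⟨actB σ (Sum.inl a), inl_SS g _, rfl⟩, by simp⟩
      · have h1 := hσ a b
        have h2 := (abs_le.1 h1).1
        have h3 : f.1 a.1 b.1 < (s : ℝ) := hb
        have h0 := (f.nonneg a.1 b.1).trans_lt h3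
        refine ⟨pt (Sum.inr (σ a, σ b, s + r)), ⟨_, ?_, rfl⟩, ?_⟩
        · rw [inr_SS]
          push_cast
          linarith
        · rw [actB_inr]
          exact hd _ _ _ h0
    · rintro _ ⟨b, hb, rfl⟩
      rcases b with c | ⟨c, d, s⟩
      · refine ⟨h (pt (Sum.inl (σ.symm c))), ⟨_, ⟨_, inl_SS f _, rfl⟩, rfl⟩, ?_⟩
        rw [hh, actB_inl, Equiv.apply_symm_apply]
        simp
      · have h1 := hσ (σ.symm c) (σ.symm d)
        rw [Equiv.apply_symm_apply, Equiv.apply_symm_apply] at h1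
        have h2 := (abs_le.1 h1).2
        have h3 : g.1 c.1 d.1 < (s : ℝ) := hb
        have h0 := (g.nonneg c.1 d.1).trans_lt h3
        refine ⟨h (pt (Sum.inr (σ.symm c, σ.symm d, s + r))), ⟨_, ⟨_, ?_, rfl⟩, rfl⟩, ?_⟩
        · rw [inr_SS]
          push_cast
          linarith
        · rw [hh, actB_inr, Equiv.apply_symm_apply, Equiv.apply_symm_apply]
          exact hd _ _ _ h0
  unfold rhoOrb
  refine (iInf₂_le h (IsometryEquiv.refl U)).trans ?_
  show Metric.hausdorffEDist (h '' (AA pt f : Set U)) (id '' (AA pt g : Set U)) ≤ _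
  rw [image_id]
  exact key

/-- From the orbit pseudometric to a permutation. -/
theorem perm_of_orb {U : Type} [MetricSpace U] (pt : BB → U)
    (hpt : ∀ b b', dist (pt b) (pt b') = ((dBB b b' : ℚ) : ℝ))
    {f g : Met} {δ : ℚ} (hδ0 : 0 < δ) (hδ : δ ≤ 1 / 10)
    (h : rhoOrb U (AA pt f) (AA pt g) < ENNReal.ofReal δ) :
    ∃ σ : Equiv.Perm II, ∀ a b : II, |f.1 a.1 b.1 - g.1 (σ a).1 (σ b).1| ≤ 2 * δ := by
  unfold rhoOrb at h
  rw [iInf_lt_iff] at h
  obtain ⟨u, h⟩ := h
  rw [iInf_lt_iff] at h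
  obtain ⟨v, h⟩ := h
  have e1 : u '' (AA pt f : Set U) = closure (u '' (pt '' SS f)) := by
    show u '' closure (pt '' SS f) = _
    exact u.toHomeomorph.image_closure _
  have e2 : v '' (AA pt g : Set U) = closure (v '' (pt '' SS g)) := by
    show v '' closure (pt '' SS g) = _
    exact v.toHomeomorph.image_closure _
  rw [e1, e2, Metric.hausdorffEDist_closure] at h
  apply dec (f := f) (g := g) (δ := δ)
    (N := fun b b' => dist (u (pt b)) (v (pt b')) < δ) hδ hδ0.le
  · intro b hb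
    have hm : u (pt b) ∈ u '' (pt '' SS f) := ⟨_, ⟨b, hb, rfl⟩, rfl⟩
    obtain ⟨y, ⟨_, ⟨b', hb', rfl⟩, rfl⟩, hy⟩ :=
      Metric.exists_edist_lt_of_hausdorffEDist_lt hm h
    refine ⟨b', hb', ?_⟩
    rw [edist_dist, ENNReal.ofReal_lt_ofReal_iff_of_nonneg dist_nonneg] at hy
    exact hy
  · intro b' hb'
    rw [Metric.hausdorffEDist_comm] at h
    have hm : v (pt b') ∈ v '' (pt '' SS g) := ⟨_, ⟨b', hb', rfl⟩, rfl⟩
    obtain ⟨y, ⟨_, ⟨b, hb, rfl⟩, rfl⟩, hy⟩ :=
      Metric.exists_edist_lt_of_hausdorffEDist_lt hm h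
    refine ⟨b, hb, ?_⟩
    rw [edist_dist, ENNReal.ofReal_lt_ofReal_iff_of_nonneg dist_nonneg, dist_comm] at hy
    exact hy
  · intro b b' c c' hN hN'
    have h1 : ((dBB b c : ℚ) : ℝ) = dist (u (pt b)) (u (pt c)) := by
      rw [u.isometry.dist_eq, hpt]
    have h2 : ((dBB b' c' : ℚ) : ℝ) = dist (v (pt b')) (v (pt c')) := by
      rw [v.isometry.dist_eq, hpt]
    have h3 := dist_triangle4 (u (pt b)) (v (pt b')) (v (pt c')) (u (pt c))
    have h4 := dist_triangle4 (v (pt b')) (u (pt b)) (u (pt c)) (v (pt c'))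
    have h5 := dist_comm (u (pt b)) (v (pt b'))
    have h6 := dist_comm (u (pt c)) (v (pt c'))
    have h7 : |((dBB b c : ℚ) : ℝ) - ((dBB b' c' : ℚ) : ℝ)| ≤ 2 * (δ : ℝ) := by
      rw [h1, h2, abs_le]
      constructor <;> linarith
    exact_mod_cast h7

instance (f : Met) : Nonempty (Pt f) := ⟨(0 : ℕ)⟩

/-- The inclusion of `ℕ` into `M_f`. -/
noncomputable def inc (f : Met) (n : ℕ) : MM f := UniformSpace.Completion.coe' (α := Pt f) n

theorem inc_dist (f : Met) (n m : ℕ) : dist (inc f n) (inc f m) = f.1 n m :=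
  UniformSpace.Completion.dist_eq (α := Pt f) n m

theorem inc_dense (f : Met) : DenseRange (inc f) :=
  UniformSpace.Completion.denseRange_coe (α := Pt f)

/-- From a correspondence to the Gromov–Hausdorff distance. -/
theorem gh_of_maps {ι : Type} [Nonempty ι] {f g : Met} {δ : ℝ} (hδ : 0 < δ) (a b : ι → ℕ)
    (ha : Function.Surjective a) (hb : Function.Surjective b)
    (hab : ∀ p q : ι, |f.1 (a p) (a q) - g.1 (b p) (b q)| ≤ 2 * δ) :
    rhoGH f g ≤ ENNReal.ofReal δ := by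
  let Φ : ι → MM f := fun p => inc f (a p)
  let Ψ : ι → MM g := fun p => inc g (b p)
  have H : ∀ p q, |dist (Φ p) (Φ q) - dist (Ψ p) (Ψ q)| ≤ 2 * δ := by
    intro p q
    show |dist (inc f (a p)) (inc f (a q)) - dist (inc g (b p)) (inc g (b q))| ≤ _
    rw [inc_dist, inc_dist]
    exact hab p q
  letI : MetricSpace (MM f ⊕ MM g) := Metric.glueMetricApprox Φ Ψ δ hδ H
  have hl : Isometry (Sum.inl : MM f → MM f ⊕ MM g) := Isometry.of_dist_eq fun x y => rfl
  have hr : Isometry (Sum.inr : MM g → MM f ⊕ MM g) := Isometry.of_dist_eq fun x y => rfl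
  have hd : ∀ p, dist (Sum.inl (Φ p) : MM f ⊕ MM g) (Sum.inr (Ψ p)) = δ := fun p =>
    Metric.glueDist_glued_points Φ Ψ δ p
  unfold rhoGH
  refine (iInf_le _ (MM f ⊕ MM g)).trans ?_
  refine (iInf_le _ (Metric.glueMetricApprox Φ Ψ δ hδ H)).trans ?_
  refine (iInf_le _ Sum.inl).trans ?_
  refine (iInf_le _ Sum.inr).trans ?_
  refine (iInf_le _ ⟨hl, hr⟩).trans ?_
  have hdl : closure (range fun p : ι => (Sum.inl (Φ p) : MM f ⊕ MM g)) =
      closure (range (Sum.inl : MM f → MM f ⊕ MM g)) := by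
    apply subset_antisymm
    · apply closure_mono
      rintro _ ⟨p, rfl⟩
      exact ⟨_, rfl⟩
    · apply closure_minimal _ isClosed_closure
      rintro _ ⟨x, rfl⟩
      have h1 : x ∈ closure (range Φ) := by
        have h2 : range (inc f) ⊆ range Φ := by
          rintro _ ⟨n, rfl⟩
          obtain ⟨p, rfl⟩ := ha n
          exact ⟨p, rfl⟩
        exact closure_mono h2 (inc_dense f x)
      have h3 := image_closure_subset_closure_image hl.continuous ⟨x, h1, rfl⟩
      rw [← range_comp] at h3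
      exact h3
  have hdr : closure (range fun p : ι => (Sum.inr (Ψ p) : MM f ⊕ MM g)) =
      closure (range (Sum.inr : MM g → MM f ⊕ MM g)) := by
    apply subset_antisymm
    · apply closure_mono
      rintro _ ⟨p, rfl⟩
      exact ⟨_, rfl⟩
    · apply closure_minimal _ isClosed_closure
      rintro _ ⟨x, rfl⟩
      have h1 : x ∈ closure (range Ψ) := by
        have h2 : range (inc g) ⊆ range Ψ := by
          rintro _ ⟨n, rfl⟩
          obtain ⟨p, rfl⟩ := hb n
          exact ⟨p, rfl⟩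
        exact closure_mono h2 (inc_dense g x)
      have h3 := image_closure_subset_closure_image hr.continuous ⟨x, h1, rfl⟩
      rw [← range_comp] at h3
      exact h3
  rw [← Metric.hausdorffEDist_closure, ← hdl, ← hdr, Metric.hausdorffEDist_closure]
  apply Metric.hausdorffEDist_le_of_mem_edist
  · rintro _ ⟨p, rfl⟩
    refine ⟨_, ⟨p, rfl⟩, ?_⟩
    rw [edist_dist, hd]
  · rintro _ ⟨p, rfl⟩
    refine ⟨_, ⟨p, rfl⟩, ?_⟩
    rw [edist_dist, dist_comm, hd]

/-- From a permutation to the Gromov–Hausdorff distance. -/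
theorem gh_of_perm {f g : Met} {δ : ℝ} (hδ : 0 < δ) (σ : Equiv.Perm II)
    (hσ : ∀ a b : II, |f.1 a.1 b.1 - g.1 (σ a).1 (σ b).1| ≤ 2 * δ) :
    rhoGH f g ≤ ENNReal.ofReal δ := by
  refine gh_of_maps hδ (fun a : II => a.1) (fun a : II => (σ a).1) (fun n => ⟨(n, 0), rfl⟩)
    (fun n => ⟨σ.symm (n, 0), ?_⟩) hσ
  show (σ (σ.symm (n, 0))).1 = n
  rw [Equiv.apply_symm_apply]

/-- From the Gromov–Hausdorff distance to a correspondence. -/
theorem rel_of_gh {f g : Met} {δ : ℝ} (h : rhoGH f g < ENNReal.ofReal δ) :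
    ∃ R : ℕ → ℕ → Prop, (∀ n, ∃ m, R n m) ∧ (∀ m, ∃ n, R n m) ∧
      ∀ n m n' m', R n m → R n' m' → |f.1 n n' - g.1 m m'| ≤ 2 * δ := by
  unfold rhoGH at h
  simp only [iInf_lt_iff] at h
  obtain ⟨Z, _, i, j, ⟨hi, hj⟩, h⟩ := h
  refine ⟨fun n m => dist (i (inc f n)) (j (inc g m)) < δ, ?_, ?_, ?_⟩
  · intro n
    have hm : i (inc f n) ∈ range i := ⟨_, rfl⟩
    obtain ⟨_, ⟨y, rfl⟩, hy⟩ := Metric.exists_edist_lt_of_hausdorffEDist_lt hm h
    rw [edist_dist, ENNReal.ofReal_lt_ofReal_iff_of_nonneg dist_nonneg] at hy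
    have ho : IsOpen {y : MM g | dist (i (inc f n)) (j y) < δ} :=
      isOpen_lt (continuous_const.dist hj.continuous) continuous_const
    obtain ⟨m, hm⟩ := (inc_dense g).exists_mem_open ho ⟨y, hy⟩
    exact ⟨m, hm⟩
  · intro m
    rw [Metric.hausdorffEDist_comm] at h
    have hm : j (inc g m) ∈ range j := ⟨_, rfl⟩
    obtain ⟨_, ⟨y, rfl⟩, hy⟩ := Metric.exists_edist_lt_of_hausdorffEDist_lt hm h
    rw [edist_dist, ENNReal.ofReal_lt_ofReal_iff_of_nonneg dist_nonneg] at hy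
    have ho : IsOpen {y : MM f | dist (j (inc g m)) (i y) < δ} :=
      isOpen_lt (continuous_const.dist hi.continuous) continuous_const
    obtain ⟨n, hn⟩ := (inc_dense f).exists_mem_open ho ⟨y, hy⟩
    exact ⟨n, (dist_comm _ _).trans_lt hn⟩
  · intro n m n' m' k1 k2
    rw [← inc_dist, ← inc_dist, ← hi.dist_eq, ← hj.dist_eq, abs_le]
    have h3 := dist_triangle4 (i (inc f n)) (j (inc g m)) (j (inc g m')) (i (inc f n'))
    have h4 := dist_triangle4 (j (inc g m)) (i (inc f n)) (i (inc f n')) (j (inc g m'))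
    have h5 := dist_comm (i (inc f n)) (j (inc g m))
    have h6 := dist_comm (i (inc f n')) (j (inc g m'))
    constructor <;> linarith

/-- A total and surjective relation between countable sets, with infinite multiplicities, contains
a bijection. -/
theorem perm_of_rel {X Y : Type} [Encodable X] [Encodable Y] {R : X → Y → Prop}
    (h1 : ∀ n, ∃ m, R n m) (h2 : ∀ m, ∃ n, R n m) :
    ∃ σ : (X × ℕ) ≃ (Y × ℕ), ∀ a, R a.1 (σ a).1 := by
  choose α hα using h1
  choose β hβ using h2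
  have hinjα : Function.Injective (fun a : X × ℕ => ((α a.1, Encodable.encode a) : Y × ℕ)) := by
    intro a b hab
    exact Encodable.encode_injective (congrArg Prod.snd hab)
  have hinjβ : Function.Injective (fun a : Y × ℕ => ((β a.1, Encodable.encode a) : X × ℕ)) := by
    intro a b hab
    exact Encodable.encode_injective (congrArg Prod.snd hab)
  obtain ⟨σ, hσ, hR⟩ := Function.Embedding.schroeder_bernstein_of_rel hinjα hinjβ
    (fun a b => R a.1 b.1) (fun a => hα a.1) (fun b => hβ b.1)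
  exact ⟨Equiv.ofBijective σ hσ, hR⟩

/-- From the Gromov–Hausdorff distance to a permutation. -/
theorem perm_of_gh {f g : Met} {δ : ℝ} (h : rhoGH f g < ENNReal.ofReal δ) :
    ∃ σ : Equiv.Perm II, ∀ a b : II, |f.1 a.1 b.1 - g.1 (σ a).1 (σ b).1| ≤ 2 * δ := by
  obtain ⟨R, h1, h2, h3⟩ := rel_of_gh h
  obtain ⟨σ, hσ⟩ := perm_of_rel h1 h2
  exact ⟨σ, fun a b => h3 _ _ _ _ (hσ a) (hσ b)⟩

instance : Countable BB := inferInstance

/-- The Gromov–Hausdorff distance is reducible to the orbit pseudometric. -/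
theorem main (U : Type) [MetricSpace U] (hU : IsUrysohn U) :
    BURed (inferInstance : MeasurableSpace Met) (effros U) rhoGH (rhoOrb U) := by
  have h1 := hU.complete
  have h2 := hU.separable
  obtain ⟨pt, hpt, hext⟩ := tower' dBB_pm U (extP_of_urysohn hU)
  refine ⟨AA pt, AA_meas pt, fun ε hε => ?_⟩
  obtain ⟨δ, hδ1, hδ2⟩ := exists_rat_btwn (show 0 < min (1 / 10) ε by
    exact lt_min (by norm_num) hε)
  have hδ0 : (0 : ℚ) < δ := by exact_mod_cast hδ1
  have hδ10 : (δ : ℝ) < 1 / 10 := hδ2.trans_le (min_le_left _ _)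
  have hδε : (δ : ℝ) < ε := hδ2.trans_le (min_le_right _ _)
  have hδ10' : δ ≤ 1 / 10 := by
    have : (δ : ℝ) ≤ ((1 / 10 : ℚ) : ℝ) := by
      push_cast
      exact hδ10.le
    exact_mod_cast this
  refine ⟨ε / 4, δ, by positivity, hδ1, fun f g => ⟨fun h => ?_, fun h => ?_⟩⟩
  · obtain ⟨σ, hσ⟩ := perm_of_gh h
    refine (orb_le pt hpt hext (by positivity) σ hσ).trans_lt ?_
    rw [ENNReal.ofReal_lt_ofReal_iff hε]
    linarith
  · obtain ⟨σ, hσ⟩ := perm_of_orb pt hpt hδ0 hδ10' h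
    refine (gh_of_perm hδ1 σ hσ).trans_lt ?_
    rw [ENNReal.ofReal_lt_ofReal_iff hε]
    exact hδε

end Pool.Agent.H655.UR
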