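import Mathlib

/-! Back-and-forth for complete separable metric spaces; the extension property. -/

namespace Pool.Agent.H655.UR

open Set Filter Topology

/-- Back-and-forth for a family of finite lists of pairs. -/
theorem bf {X Y : Type} (P : List (X × Y) → Prop) (a : ℕ → X) (b : ℕ → Y)
    (L0 : List (X × Y)) (h0 : P L0)
    (hx : ∀ L, P L → ∀ x, ∃ y, P ((x, y) :: L))
    (hy : ∀ L, P L → ∀ y, ∃ x, P ((x, y) :: L)) :
    ∃ R : Set (X × Y), (∀ p ∈ L0, p ∈ R) ∧ (∀ n, ∃ y, (a n, y) ∈ R) ∧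
      (∀ n, ∃ x, (x, b n) ∈ R) ∧ ∀ p ∈ R, ∀ q ∈ R, ∃ L, P L ∧ p ∈ L ∧ q ∈ L := by
  choose f hf using hx
  choose g hg using hy
  let S : ℕ → {L // P L} := fun n => Nat.rec ⟨L0, h0⟩
    (fun n L => ⟨(g ((a n, f L.1 L.2 (a n)) :: L.1) (hf L.1 L.2 (a n)) (b n), b n) ::
      (a n, f L.1 L.2 (a n)) :: L.1, hg _ _ _⟩) n
  have hS : ∀ n, (S (n + 1)).1 = (g ((a n, f (S n).1 (S n).2 (a n)) :: (S n).1)
      (hf (S n).1 (S n).2 (a n)) (b n), b n) :: (a n, f (S n).1 (S n).2 (a n)) :: (S n).1 :=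
    fun n => rfl
  have hmono : ∀ m n, m ≤ n → ∀ p ∈ (S m).1, p ∈ (S n).1 := by
    intro m n hmn
    induction n, hmn using Nat.le_induction with
    | base => exact fun p hp => hp
    | succ n hn ih =>
      intro p hp
      rw [hS n]
      exact List.mem_cons_of_mem _ (List.mem_cons_of_mem _ (ih p hp))
  refine ⟨{p | ∃ n, p ∈ (S n).1}, ?_, ?_, ?_, ?_⟩
  · exact fun p hp => ⟨0, hp⟩
  · intro n
    refine ⟨f (S n).1 (S n).2 (a n), n + 1, ?_⟩
    rw [hS n]
    simp
  · intro n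
    refine ⟨g ((a n, f (S n).1 (S n).2 (a n)) :: (S n).1) (hf (S n).1 (S n).2 (a n)) (b n),
      n + 1, ?_⟩
    rw [hS n]
    simp
  · rintro p ⟨n, hn⟩ q ⟨m, hm⟩
    exact ⟨(S (max n m)).1, (S (max n m)).2, hmono n _ (le_max_left _ _) p hn,
      hmono m _ (le_max_right _ _) q hm⟩

/-- Forth only. -/
theorem forth {X Y : Type} (P : List (X × Y) → Prop) (a : ℕ → X) (h0 : P [])
    (hx : ∀ L, P L → ∀ x, ∃ y, P ((x, y) :: L)) :
    ∃ R : Set (X × Y), (∀ n, ∃ y, (a n, y) ∈ R) ∧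
      ∀ p ∈ R, ∀ q ∈ R, ∃ L, P L ∧ p ∈ L ∧ q ∈ L := by
  choose f hf using hx
  let S : ℕ → {L // P L} := fun n => Nat.rec ⟨[], h0⟩
    (fun n L => ⟨(a n, f L.1 L.2 (a n)) :: L.1, hf L.1 L.2 (a n)⟩) n
  have hS : ∀ n, (S (n + 1)).1 = (a n, f (S n).1 (S n).2 (a n)) :: (S n).1 :=
    fun n => rfl
  have hmono : ∀ m n, m ≤ n → ∀ p ∈ (S m).1, p ∈ (S n).1 := by
    intro m n hmn
    induction n, hmn using Nat.le_induction with
    | base => exact fun p hp => hp
    | succ n hn ih =>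
      intro p hp
      rw [hS n]
      exact List.mem_cons_of_mem _ (ih p hp)
  refine ⟨{p | ∃ n, p ∈ (S n).1}, ?_, ?_⟩
  · intro n
    refine ⟨f (S n).1 (S n).2 (a n), n + 1, ?_⟩
    rw [hS n]
    simp
  · rintro p ⟨n, hn⟩ q ⟨m, hm⟩
    exact ⟨(S (max n m)).1, (S (max n m)).2, hmono n _ (le_max_left _ _) p hn,
      hmono m _ (le_max_right _ _) q hm⟩

/-- Extension of an isometric correspondence. -/
theorem iso_ext {ι X Y : Type} [MetricSpace X] [MetricSpace Y] [CompleteSpace Y]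
    (u : ι → X) (v : ι → Y) (hu : DenseRange u)
    (h : ∀ i j, dist (u i) (u j) = dist (v i) (v j)) :
    ∃ F : X → Y, Isometry F ∧ ∀ i, F (u i) = v i := by
  letI : PseudoMetricSpace ι := PseudoMetricSpace.induced u inferInstance
  have hui : Isometry u := Isometry.of_dist_eq fun i j => rfl
  have hvi : Isometry v := Isometry.of_dist_eq fun i j => (h i j).symm
  have huu := hui.isUniformInducing
  let F : X → Y := (huu.isDenseInducing hu).extend v
  have hF : ∀ i, F (u i) = v i := fun i => uniformly_extend_of_ind huu hu hvi.uniformContinuous i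
  have hc : Continuous F :=
    (uniformContinuous_uniformly_extend huu hu hvi.uniformContinuous).continuous
  refine ⟨F, Isometry.of_dist_eq fun x y => ?_, hF⟩
  refine DenseRange.induction_on₂ (p := fun x y => dist (F x) (F y) = dist x y) hu ?_ ?_ x y
  · exact isClosed_eq ((hc.comp continuous_fst).dist (hc.comp continuous_snd)) continuous_dist
  · intro i j
    rw [hF, hF, h]

theorem iso_equiv {ι X Y : Type} [MetricSpace X] [MetricSpace Y] [CompleteSpace Y]
    [CompleteSpace X] (u : ι → X) (v : ι → Y) (hu : DenseRange u) (hv : DenseRange v)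
    (h : ∀ i j, dist (u i) (u j) = dist (v i) (v j)) :
    ∃ e : X ≃ᵢ Y, ∀ i, e (u i) = v i := by
  obtain ⟨F, hF, hFi⟩ := iso_ext u v hu h
  have hs : Function.Surjective F := by
    have hc : IsClosed (range F) := hF.isClosedEmbedding.isClosed_range
    have hd : Dense (range F) := hv.mono (by rintro _ ⟨i, rfl⟩; exact ⟨u i, hFi i⟩)
    rw [← Set.range_eq_univ, ← hc.closure_eq]
    exact hd.closure_eq
  exact ⟨⟨Equiv.ofBijective F ⟨hF.injective, hs⟩, hF⟩, hFi⟩

/-- Katetov data. -/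
def Kat {X : Type} [MetricSpace X] (L : List (X × ℝ)) : Prop :=
  ∀ p ∈ L, ∀ q ∈ L, |p.2 - q.2| ≤ dist p.1 q.1 ∧ dist p.1 q.1 ≤ p.2 + q.2

/-- The exact extension property. -/
def ExtP (X : Type) [MetricSpace X] : Prop :=
  ∀ L : List (X × ℝ), Kat L → ∃ u, ∀ p ∈ L, dist u p.1 = p.2

/-- The approximate extension property. -/
def ApxP (X : Type) [MetricSpace X] : Prop :=
  ∀ L : List (X × ℝ), Kat L → ∀ ε : ℝ, 0 < ε → ∃ u, ∀ p ∈ L, |dist u p.1 - p.2| ≤ ε

theorem low_bound {X : Type} (L : List (X × ℝ)) (h : ∀ p ∈ L, 0 < p.2) :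
    ∃ c : ℝ, 0 < c ∧ ∀ p ∈ L, c ≤ p.2 := by
  induction L with
  | nil => exact ⟨1, one_pos, by simp⟩
  | cons a L ih =>
    obtain ⟨c, hc, hc'⟩ := ih (fun p hp => h p (List.mem_cons_of_mem _ hp))
    refine ⟨min c a.2, lt_min hc (h a (by simp)), ?_⟩
    intro p hp
    rcases List.mem_cons.1 hp with hp | hp
    · subst hp; exact min_le_right _ _
    · exact (min_le_left _ _).trans (hc' p hp)

theorem ext_of_apx {X : Type} [MetricSpace X] [CompleteSpace X] (h : ApxP X) : ExtP X := by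
  intro L hL
  by_cases hpos : ∀ p ∈ L, 0 < p.2
  · obtain ⟨c, hc, hcL⟩ := low_bound L hpos
    have hpw : ∀ n : ℕ, 0 < c / 2 ^ n := fun n => by positivity
    have hpc : ∀ n : ℕ, c / 2 ^ n ≤ c := fun n => div_le_self hc.le (one_le_pow₀ (by norm_num))
    have step : ∀ n (z : {z : X // ∀ p ∈ L, |dist z p.1 - p.2| ≤ c / 2 ^ n}),
        ∃ z' : {z : X // ∀ p ∈ L, |dist z p.1 - p.2| ≤ c / 2 ^ (n + 1)},
          dist z.1 z'.1 ≤ (4 * c) / 2 / 2 ^ n := by
      intro n z
      have hk : Kat ((z.1, c / 2 ^ n) :: L) := by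
        intro p hp q hq
        rcases List.mem_cons.1 hp with hp | hp <;> rcases List.mem_cons.1 hq with hq | hq
        · subst hp; subst hq
          simp only [sub_self, abs_zero, dist_self, le_refl, true_and]
          have := hpw n
          linarith
        · subst hp
          have h1 := abs_le.1 (z.2 q hq)
          have h2 := hcL q hq
          have h3 := hpc n
          have h4 := hpw n
          have h5 : 0 ≤ dist z.1 q.1 := dist_nonneg
          refine ⟨abs_le.2 ⟨?_, ?_⟩, ?_⟩ <;> simp only <;> linarith [h1.1, h1.2]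
        · subst hq
          have h1 := abs_le.1 (z.2 p hp)
          have h2 := hcL p hp
          have h3 := hpc n
          have h4 := hpw n
          have h5 : 0 ≤ dist z.1 p.1 := dist_nonneg
          have h6 : dist p.1 z.1 = dist z.1 p.1 := dist_comm _ _
          refine ⟨abs_le.2 ⟨?_, ?_⟩, ?_⟩ <;> simp only [h6] <;> linarith [h1.1, h1.2]
        · exact hL p hp q hq
      obtain ⟨u, hu⟩ := h _ hk (c / 2 ^ (n + 1)) (hpw (n + 1))
      refine ⟨⟨u, fun p hp => hu p (List.mem_cons_of_mem _ hp)⟩, ?_⟩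
      have h1 := abs_le.1 (hu (z.1, c / 2 ^ n) (by simp))
      have h2 : c / 2 ^ (n + 1) ≤ c / 2 ^ n := by
        rw [pow_succ]
        apply div_le_div_of_nonneg_left hc.le (by positivity)
        have : (0 : ℝ) < 2 ^ n := by positivity
        linarith
      have h3 : dist z.1 u = dist u z.1 := dist_comm _ _
      have h4 : (4 * c) / 2 / 2 ^ n = 2 * (c / 2 ^ n) := by ring
      rw [h4]
      show dist z.1 u ≤ _
      rw [h3]
      simp only at h1
      linarith [h1.2]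
    choose F hF using step
    obtain ⟨z0, hz0⟩ := h L hL c hc
    let s : (n : ℕ) → {z : X // ∀ p ∈ L, |dist z p.1 - p.2| ≤ c / 2 ^ n} := fun n =>
      Nat.rec (motive := fun n => {z : X // ∀ p ∈ L, |dist z p.1 - p.2| ≤ c / 2 ^ n})
        ⟨z0, by simpa using hz0⟩ (fun n z => F n z) n
    have hs : ∀ n, dist (s n).1 (s (n + 1)).1 ≤ (4 * c) / 2 / 2 ^ n := fun n => hF n (s n)
    have hcau : CauchySeq (fun n => (s n).1) := cauchySeq_of_le_geometric_two hs
    obtain ⟨u, hu⟩ := cauchySeq_tendsto_of_complete hcau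
    refine ⟨u, fun p hp => ?_⟩
    have h1 : Tendsto (fun n => dist (s n).1 p.1) atTop (𝓝 (dist u p.1)) :=
      hu.dist tendsto_const_nhds
    have h2 : Tendsto (fun n => dist (s n).1 p.1) atTop (𝓝 p.2) := by
      rw [tendsto_iff_dist_tendsto_zero]
      have h3 : Tendsto (fun n : ℕ => c / 2 ^ n) atTop (𝓝 0) := by
        have := tendsto_pow_atTop_nhds_zero_of_lt_one (r := (1 / 2 : ℝ)) (by norm_num) (by norm_num)
        have h4 := this.const_mul c
        simp only [mul_zero] at h4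
        refine h4.congr fun n => ?_
        rw [one_div, inv_pow, div_eq_mul_inv]
      refine squeeze_zero (fun n => dist_nonneg) (fun n => ?_) h3
      rw [Real.dist_eq]
      exact (s n).2 p hp
    exact tendsto_nhds_unique h1 h2
  · push Not at hpos
    obtain ⟨p, hp, hp0⟩ := hpos
    have h1 := (hL p hp p hp).2
    rw [dist_self] at h1
    have h2 : p.2 = 0 := by linarith
    refine ⟨p.1, fun q hq => ?_⟩
    have h3 := hL p hp q hq
    rw [h2] at h3
    have h4 := (abs_le.1 h3.1).1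
    linarith [h3.2]

/-- One-point extension of a finite partial isometry. -/
theorem ext_pair {X Y : Type} [MetricSpace X] [MetricSpace Y] (hY : ExtP Y) (L : List (X × Y))
    (hL : ∀ p ∈ L, ∀ q ∈ L, dist p.1 q.1 = dist p.2 q.2) (x : X) :
    ∃ y, ∀ p ∈ (x, y) :: L, ∀ q ∈ (x, y) :: L, dist p.1 q.1 = dist p.2 q.2 := by
  obtain ⟨y, hy⟩ := hY (L.map fun p => (p.2, dist x p.1)) (by
    intro p hp q hq
    rw [List.mem_map] at hp hq
    obtain ⟨p, hp, rfl⟩ := hp
    obtain ⟨q, hq, rfl⟩ := hq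
    simp only
    rw [← hL p hp q hq]
    refine ⟨?_, ?_⟩
    · rw [dist_comm x p.1, dist_comm x q.1]
      exact abs_dist_sub_le p.1 q.1 x
    · exact dist_triangle_left _ _ _)
  refine ⟨y, ?_⟩
  have hy' : ∀ p ∈ L, dist y p.2 = dist x p.1 := fun p hp =>
    hy (p.2, dist x p.1) (List.mem_map.2 ⟨p, hp, rfl⟩)
  intro p hp q hq
  rcases List.mem_cons.1 hp with hp | hp <;> rcases List.mem_cons.1 hq with hq | hq
  · subst hp; subst hq; simp
  · subst hp
    exact (hy' q hq).symm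
  · subst hq
    rw [dist_comm p.1, dist_comm p.2]
    exact (hy' p hp).symm
  · exact hL p hp q hq

/-- Finite partial isometries extend. -/
theorem homog {X Y : Type} [MetricSpace X] [MetricSpace Y] [CompleteSpace X] [CompleteSpace Y]
    [TopologicalSpace.SeparableSpace X] [TopologicalSpace.SeparableSpace Y]
    (hX : ExtP X) (hY : ExtP Y) (L : List (X × Y))
    (hL : ∀ p ∈ L, ∀ q ∈ L, dist p.1 q.1 = dist p.2 q.2) :
    ∃ e : X ≃ᵢ Y, ∀ p ∈ L, e p.1 = p.2 := by
  haveI : Nonempty X := by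
    obtain ⟨u, -⟩ := hX [] (by intro p hp; simp at hp)
    exact ⟨u⟩
  haveI : Nonempty Y := by
    obtain ⟨u, -⟩ := hY [] (by intro p hp; simp at hp)
    exact ⟨u⟩
  obtain ⟨R, hR0, hR1, hR2, hR⟩ := bf
    (fun L : List (X × Y) => ∀ p ∈ L, ∀ q ∈ L, dist p.1 q.1 = dist p.2 q.2)
    (TopologicalSpace.denseSeq X) (TopologicalSpace.denseSeq Y) L hL
    (fun L hL x => ext_pair hY L hL x)
    (by
      intro L hL y
      obtain ⟨x, hx⟩ := ext_pair hX (L.map Prod.swap) (by
        intro p hp q hq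
        rw [List.mem_map] at hp hq
        obtain ⟨p, hp, rfl⟩ := hp
        obtain ⟨q, hq, rfl⟩ := hq
        exact (hL p hp q hq).symm) y
      refine ⟨x, fun p hp q hq => ?_⟩
      have key : ∀ p ∈ (x, y) :: L, p.swap ∈ (y, x) :: L.map Prod.swap := by
        intro p hp
        rcases List.mem_cons.1 hp with hp | hp
        · subst hp; simp
        · exact List.mem_cons_of_mem _ (List.mem_map.2 ⟨p, hp, rfl⟩)
      exact (hx _ (key p hp) _ (key q hq)).symm)
  have hd : ∀ i j : R, dist i.1.1 j.1.1 = dist i.1.2 j.1.2 := by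
    intro i j
    obtain ⟨L, hL, hi, hj⟩ := hR i.1 i.2 j.1 j.2
    exact hL _ hi _ hj
  obtain ⟨e, he⟩ := iso_equiv (ι := R) (fun i => i.1.1) (fun i => i.1.2)
    ((TopologicalSpace.denseRange_denseSeq X).mono (by
      rintro _ ⟨n, rfl⟩
      obtain ⟨y, hy⟩ := hR1 n
      exact ⟨⟨_, hy⟩, rfl⟩))
    ((TopologicalSpace.denseRange_denseSeq Y).mono (by
      rintro _ ⟨n, rfl⟩
      obtain ⟨x, hx⟩ := hR2 n
      exact ⟨⟨_, hx⟩, rfl⟩)) hd
  exact ⟨e, fun p hp => he ⟨p, hR0 p hp⟩⟩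

/-- Universality. -/
theorem univ_of_ext {X Y : Type} [MetricSpace X] [MetricSpace Y] [CompleteSpace Y]
    [TopologicalSpace.SeparableSpace X] (hY : ExtP Y) : ∃ F : X → Y, Isometry F := by
  rcases isEmpty_or_nonempty X with hX | hX
  · exact ⟨fun x => hX.elim x, fun x => hX.elim x⟩
  obtain ⟨R, hR1, hR⟩ := forth
    (fun L : List (X × Y) => ∀ p ∈ L, ∀ q ∈ L, dist p.1 q.1 = dist p.2 q.2)
    (TopologicalSpace.denseSeq X) (by intro p hp; simp at hp)
    (fun L hL x => ext_pair hY L hL x)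
  have hd : ∀ i j : R, dist i.1.1 j.1.1 = dist i.1.2 j.1.2 := by
    intro i j
    obtain ⟨L, hL, hi, hj⟩ := hR i.1 i.2 j.1 j.2
    exact hL _ hi _ hj
  obtain ⟨e, he, -⟩ := iso_ext (ι := R) (fun i => i.1.1) (fun i => i.1.2)
    ((TopologicalSpace.denseRange_denseSeq X).mono (by
      rintro _ ⟨n, rfl⟩
      obtain ⟨y, hy⟩ := hR1 n
      exact ⟨⟨_, hy⟩, rfl⟩)) hd
  exact ⟨e, he⟩

end Pool.Agent.H655.UR
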