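import Pool.Agent.H655.UR.Fwd

/-! Closed sets with nearby codes are in nearby orbits. -/

namespace Pool.Agent.H655.UR

open Set TopologicalSpace Filter Topology
open scoped ENNReal

variable {U : Type} [MetricSpace U]

theorem path_rigid (φ φ' : ℕ → ℕ) (h1 : ∀ m, φ' (φ m) = m) (h2 : ∀ m, φ (φ' m) = m)
    (hadj : ∀ m m', (m + 1 = m' ∨ m' + 1 = m) ↔ (φ m + 1 = φ m' ∨ φ m' + 1 = φ m)) :
    ∀ m, φ m = m := by
  have h0 : φ 0 = 0 := by
    rcases Nat.eq_zero_or_pos (φ 0) with h | h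
    · exact h
    exfalso
    obtain ⟨a, ha⟩ : ∃ a, φ 0 = a + 1 := ⟨φ 0 - 1, by omega⟩
    have e1 : φ' a = 1 := by
      have := (hadj 0 (φ' a)).2 (Or.inr (by rw [h2, ha]))
      omega
    have e2 : φ' (a + 2) = 1 := by
      have := (hadj 0 (φ' (a + 2))).2 (Or.inl (by rw [h2, ha]))
      omega
    have e3 := h2 a
    have e4 := h2 (a + 2)
    rw [e1] at e3
    rw [e2] at e4
    omega
  have key : ∀ m, φ m = m ∧ φ (m + 1) = m + 1 := by
    intro m
    induction m with
    | zero =>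
      refine ⟨h0, ?_⟩
      show φ 1 = 1
      have := (hadj 0 1).1 (Or.inl rfl)
      rw [h0] at this
      omega
    | succ m ih =>
      refine ⟨ih.2, ?_⟩
      show φ (m + 2) = m + 2
      have h3 := (hadj (m + 1) (m + 2)).1 (Or.inl rfl)
      rw [ih.2] at h3
      by_contra hne
      have h4 : φ (m + 2) = m := by omega
      have h5 := h1 (m + 2)
      have h6 := h1 m
      rw [h4] at h5
      rw [ih.1] at h6
      omega
  exact fun m => (key m).1

theorem inl_inl {u : ℕ → U} {A B : Closeds U} {η : ℝ} (hη : η ≤ 1 / 50) {σ : TT ≃ TT}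
    (H : ∀ x y, |WW u A x y - WW u B (σ x) (σ y)| ≤ η) (m : ℕ) :
    ∃ m', σ (Sum.inl m) = Sum.inl m' := by
  have hne : (Sum.inl m : TT) ≠ Sum.inl (m + 1) := by simp
  have hne' : σ (Sum.inl m) ≠ σ (Sum.inl (m + 1)) := fun e => hne (σ.injective e)
  have h1 := abs_le.1 (H (Sum.inl m) (Sum.inl (m + 1)))
  rw [WW_ne u A hne, WW_ne u B hne'] at h1
  have h2 : cc u A (Sum.inl m) (Sum.inl (m + 1)) = 1 := by simp [cc]
  rw [h2] at h1
  rcases hx : σ (Sum.inl m) with m' | t
  · exact ⟨m', rfl⟩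
  · exfalso
    rw [hx] at h1
    rcases hy : σ (Sum.inl (m + 1)) with m'' | t'
    · rw [hy] at h1
      have := (cm_mem u B m'' t.1).2
      have e : cc u B (Sum.inr t) (Sum.inl m'') = cm u B m'' t.1 := rfl
      rw [e] at h1
      linarith [h1.2]
    · rw [hy] at h1
      have := (ct_mem u t.1 t'.1).2
      have e : cc u B (Sum.inr t) (Sum.inr t') = ct u t.1 t'.1 := rfl
      rw [e] at h1
      linarith [h1.2]

theorem H_symm {u : ℕ → U} {A B : Closeds U} {η : ℝ} {σ : TT ≃ TT}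
    (H : ∀ x y, |WW u A x y - WW u B (σ x) (σ y)| ≤ η) :
    ∀ x y, |WW u B x y - WW u A (σ.symm x) (σ.symm y)| ≤ η := by
  intro x y
  have := H (σ.symm x) (σ.symm y)
  rw [Equiv.apply_symm_apply, Equiv.apply_symm_apply, abs_sub_comm] at this
  exact this

theorem inl_fix {u : ℕ → U} {A B : Closeds U} {η : ℝ} (hη : η ≤ 1 / 50) {σ : TT ≃ TT}
    (H : ∀ x y, |WW u A x y - WW u B (σ x) (σ y)| ≤ η) (m : ℕ) :
    σ (Sum.inl m) = Sum.inl m := by
  choose φ hφ using inl_inl hη H
  choose φ' hφ' using inl_inl hη (H_symm H)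
  have e1 : ∀ m, φ' (φ m) = m := by
    intro m
    have := hφ' (φ m)
    rw [← hφ m, Equiv.symm_apply_apply] at this
    exact (Sum.inl.inj this).symm
  have e2 : ∀ m, φ (φ' m) = m := by
    intro m
    have := hφ (φ' m)
    rw [← hφ' m, Equiv.apply_symm_apply] at this
    exact (Sum.inl.inj this).symm
  have hinj : ∀ m m', φ m = φ m' → m = m' := by
    intro m m' h
    rw [← e1 m, ← e1 m', h]
  have key := path_rigid φ φ' e1 e2 (by
    intro m m'
    by_cases hmm : m = m'
    · subst hmm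
      constructor <;> intro h <;> omega
    · have hne : (Sum.inl m : TT) ≠ Sum.inl m' := fun e => hmm (Sum.inl.inj e)
      have hne' : σ (Sum.inl m) ≠ σ (Sum.inl m') := fun e => hne (σ.injective e)
      have h1 := abs_le.1 (H (Sum.inl m) (Sum.inl m'))
      rw [WW_ne u A hne, WW_ne u B hne', hφ, hφ] at h1
      simp only [cc] at h1
      by_cases h2 : (m + 1 = m' ∨ m' + 1 = m) <;> by_cases h3 : (φ m + 1 = φ m' ∨ φ m' + 1 = φ m)
      · exact ⟨fun _ => h3, fun _ => h2⟩
      · rw [if_pos h2, if_neg h3] at h1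
        linarith [h1.2]
      · rw [if_neg h2, if_pos h3] at h1
        linarith [h1.1]
      · exact ⟨fun h => absurd h h2, fun h => absurd h h3⟩)
  rw [hφ, key]

/-- Good maps of tuples. -/
def Gd (u : ℕ → U) (A B : Closeds U) (η : ℝ) (ψ : (List ℕ × ℕ) → (List ℕ × ℕ)) : Prop :=
  (∀ l t, |vl u A l t.1 - vl u B l (ψ t).1| ≤ 5 * η) ∧
    (∀ t, (ψ t).1.length = t.1.length) ∧
      ∀ s t, s.1.length + 1 = t.1.length → |rs u s.1 t.1 - rs u (ψ s).1 (ψ t).1| ≤ 10 * η

theorem gd_of {u : ℕ → U} {A B : Closeds U} {η : ℝ} (hη : η ≤ 1 / 50) {σ : TT ≃ TT}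
    (H : ∀ x y, |WW u A x y - WW u B (σ x) (σ y)| ≤ η) (ψ : (List ℕ × ℕ) → (List ℕ × ℕ))
    (hψ : ∀ t, σ (Sum.inr t) = Sum.inr (ψ t)) : Gd u A B η ψ := by
  have h1 : ∀ l t, |vl u A l t.1 - vl u B l (ψ t).1| ≤ 5 * η := by
    intro l t
    obtain ⟨m, rfl⟩ := lab_surj l
    have hne : (Sum.inl m : TT) ≠ Sum.inr t := by simp
    have hne' : σ (Sum.inl m) ≠ σ (Sum.inr t) := fun e => hne (σ.injective e)
    have h1 := abs_le.1 (H (Sum.inl m) (Sum.inr t))
    rw [WW_ne u A hne, WW_ne u B hne', inl_fix hη H, hψ] at h1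
    simp only [cc, cm] at h1
    rw [abs_le]
    constructor <;> linarith [h1.1, h1.2]
  have h2 : ∀ t, (ψ t).1.length = t.1.length := by
    intro t
    have h3 := abs_le.1 (h1 (Sum.inr (Sum.inr t.1.length)) t)
    simp only [vl, if_true] at h3
    by_contra hne
    rw [if_neg hne] at h3
    linarith [h3.2]
  refine ⟨h1, h2, ?_⟩
  intro s t hst
  have hst' : (ψ s).1.length + 1 = (ψ t).1.length := by rw [h2, h2, hst]
  have hne : (Sum.inr s : TT) ≠ Sum.inr t := by
    intro e
    have := Sum.inr.inj e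
    rw [this] at hst
    omega
  have hne' : σ (Sum.inr s) ≠ σ (Sum.inr t) := fun e => hne (σ.injective e)
  have h3 := abs_le.1 (H (Sum.inr s) (Sum.inr t))
  rw [WW_ne u A hne, WW_ne u B hne', hψ, hψ] at h3
  simp only [cc, ct] at h3
  rw [if_pos hst, if_pos hst'] at h3
  rw [abs_le]
  constructor <;> linarith [h3.1, h3.2]

theorem exists_gd {u : ℕ → U} {A B : Closeds U} {η : ℝ} (hη : η ≤ 1 / 50) {σ : TT ≃ TT}
    (H : ∀ x y, |WW u A x y - WW u B (σ x) (σ y)| ≤ η) :
    ∃ ψ : (List ℕ × ℕ) ≃ (List ℕ × ℕ), Gd u A B η ψ ∧ Gd u B A η ψ.symm := by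
  have h1 : ∀ t : List ℕ × ℕ, ∃ t', σ (Sum.inr t) = Sum.inr t' := by
    intro t
    rcases hx : σ (Sum.inr t) with m | t'
    · exfalso
      have h2 := inl_fix hη (H_symm H) m
      rw [← hx, Equiv.symm_apply_apply, hx] at h2
      simp at h2
    · exact ⟨t', rfl⟩
  have h1' : ∀ t : List ℕ × ℕ, ∃ t', σ.symm (Sum.inr t) = Sum.inr t' := by
    intro t
    rcases hx : σ.symm (Sum.inr t) with m | t'
    · exfalso
      have h2 := inl_fix hη H m
      rw [← hx, Equiv.apply_symm_apply, hx] at h2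
      simp at h2
    · exact ⟨t', rfl⟩
  choose ψ hψ using h1
  choose ψ' hψ' using h1'
  have e1 : ∀ t, ψ' (ψ t) = t := by
    intro t
    have := hψ' (ψ t)
    rw [← hψ t, Equiv.symm_apply_apply] at this
    exact (Sum.inr.inj this).symm
  have e2 : ∀ t, ψ (ψ' t) = t := by
    intro t
    have := hψ (ψ' t)
    rw [← hψ' t, Equiv.apply_symm_apply] at this
    exact (Sum.inr.inj this).symm
  exact ⟨⟨ψ, ψ', e1, e2⟩, gd_of hη H ψ hψ, gd_of hη (H_symm H) ψ' hψ'⟩

/-- Distances inside a tuple. -/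
theorem gd_dist {u : ℕ → U} {A B : Closeds U} {η : ℝ} (hη : η ≤ 1 / 50)
    {ψ : (List ℕ × ℕ) → (List ℕ × ℕ)} (h : Gd u A B η ψ) (t : List ℕ × ℕ) {i j : ℕ}
    (hi : i < t.1.length) (hj : j < t.1.length) :
    |2 ^ t.1.length * dist (u (t.1.getD i 0)) (u (t.1.getD j 0)) -
      2 ^ t.1.length * dist (u ((ψ t).1.getD i 0)) (u ((ψ t).1.getD j 0))| ≤ 5 * η := by
  apply kp_dec (by linarith)
  intro q
  have h1 := h.1 (Sum.inl (i, j, q)) t
  simp only [vl] at h1
  rw [h.2.1 t, if_pos ⟨hi, hj⟩, if_pos ⟨hi, hj⟩] at h1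
  exact h1

/-- Distances to the closed set. -/
theorem gd_pred {u : ℕ → U} {A B : Closeds U} {η : ℝ} (hη : η ≤ 1 / 50)
    {ψ : (List ℕ × ℕ) → (List ℕ × ℕ)} (h : Gd u A B η ψ) (hA : (A : Set U).Nonempty)
    (hB : (B : Set U).Nonempty) (t : List ℕ × ℕ) {i : ℕ} (hi : i < t.1.length) :
    |Metric.infDist (u (t.1.getD i 0)) A - Metric.infDist (u ((ψ t).1.getD i 0)) B| ≤ 5 * η := by
  apply kp_dec (by linarith)
  intro q
  have h1 := h.1 (Sum.inr (Sum.inl (i, q))) t
  simp only [vl] at h1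
  rw [h.2.1 t, if_pos hi, if_pos hi] at h1
  unfold pv at h1
  rw [if_pos hA, if_pos hB] at h1
  exact h1

/-- Emptiness is detected. -/
theorem gd_empty {u : ℕ → U} {A B : Closeds U} {η : ℝ} (hη : η ≤ 1 / 50)
    {ψ : (List ℕ × ℕ) → (List ℕ × ℕ)} (h : Gd u A B η ψ) (hA : (A : Set U).Nonempty) :
    (B : Set U).Nonempty := by
  by_contra hB
  have h1 : ∀ q : ℚ, |pv A (u 0) q - pv B (u ((ψ ([0], 0)).1.getD 0 0)) q| ≤ 5 * η := by
    intro q
    have h1 := h.1 (Sum.inr (Sum.inl (0, q))) ([0], 0)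
    simp only [vl] at h1
    rw [h.2.1 ([0], 0)] at h1
    simpa using h1
  obtain ⟨q, hq1, hq2⟩ := exists_rat_btwn
    (show Metric.infDist (u 0) (A : Set U) < Metric.infDist (u 0) (A : Set U) + 1 / 2 by linarith)
  have h2 := abs_le.1 (h1 q)
  unfold pv at h2
  rw [if_pos hA, if_neg hB] at h2
  have h3 : kp (|Metric.infDist (u 0) (A : Set U) - q|) ≤ 1 / 2 := by
    refine (min_le_left _ _).trans ?_
    rw [abs_le]
    constructor <;> linarith
  linarith [h2.1]

/-- Restrictions. -/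
theorem rs_small {u : ℕ → U} {s t : List ℕ} {c : ℝ} (hc : c < 1) (h : rs u s t ≤ c) {i : ℕ}
    (hi : i < s.length) : 2 ^ s.length * dist (u (s.getD i 0)) (u (t.getD i 0)) ≤ c := by
  unfold rs kp at h
  have h1 : (2 : ℝ) ^ s.length * ∑ i ∈ Finset.range s.length,
      dist (u (s.getD i 0)) (u (t.getD i 0)) ≤ c := by
    rcases min_le_iff.1 h with h | h
    · exact h
    · linarith
  refine (mul_le_mul_of_nonneg_left ?_ (by positivity)).trans h1
  exact Finset.single_le_sum (f := fun i => dist (u (s.getD i 0)) (u (t.getD i 0)))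
    (fun _ _ => dist_nonneg) (Finset.mem_range.2 hi)

theorem getD_app (l : List ℕ) (k i : ℕ) (hi : i < l.length) :
    (l ++ [k]).getD i 0 = l.getD i 0 := by
  rw [List.getD_eq_getElem _ _ (by simp; omega), List.getD_eq_getElem _ _ hi,
    List.getElem_append_left hi]

theorem getD_last (l : List ℕ) (k : ℕ) : (l ++ [k]).getD l.length 0 = k := by
  rw [List.getD_eq_getElem _ _ (by simp)]
  simp

theorem rs_app (u : ℕ → U) (l : List ℕ) (k : ℕ) : rs u l (l ++ [k]) = 0 := by
  unfold rs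
  have : ∑ i ∈ Finset.range l.length, dist (u (l.getD i 0)) (u ((l ++ [k]).getD i 0)) = 0 := by
    apply Finset.sum_eq_zero
    intro i hi
    rw [getD_app l k i (Finset.mem_range.1 hi), dist_self]
  rw [this]
  simp [kp]

/-- Limits of coordinates. -/
theorem coord_lim [CompleteSpace U] (u : ℕ → U) (L : ℕ → List ℕ) {c : ℝ}
    (h : ∀ n i, i < n → 2 ^ n * dist (u ((L n).getD i 0)) (u ((L (n + 1)).getD i 0)) ≤ c) :
    ∃ x : ℕ → U, (∀ i, Tendsto (fun n => u ((L n).getD i 0)) atTop (𝓝 (x i))) ∧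
      ∀ i n, i < n → dist (u ((L n).getD i 0)) (x i) ≤ 2 * c / 2 ^ n := by
  have hstep : ∀ N i, i < N → ∀ m, dist (u ((L (m + N)).getD i 0))
      (u ((L (m + 1 + N)).getD i 0)) ≤ (2 * c / 2 ^ N) / 2 / 2 ^ m := by
    intro N i hi m
    have h1 := h (m + N) i (by omega)
    rw [show m + N + 1 = m + 1 + N by ring] at h1
    have h2 : (2 * c / 2 ^ N) / 2 / 2 ^ m = c / 2 ^ (m + N) := by
      rw [pow_add]
      field_simp
    rw [h2, le_div_iff₀ (by positivity), mul_comm]
    exact h1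
  have h1 : ∀ i, ∃ x, Tendsto (fun n => u ((L n).getD i 0)) atTop (𝓝 x) := by
    intro i
    have h2 : CauchySeq (fun m => u ((L (m + (i + 1))).getD i 0)) :=
      cauchySeq_of_le_geometric_two (hstep (i + 1) i (Nat.lt_succ_self i))
    obtain ⟨x, hx⟩ := cauchySeq_tendsto_of_complete h2
    refine ⟨x, ?_⟩
    exact (tendsto_add_atTop_iff_nat (f := fun n => u ((L n).getD i 0)) (i + 1)).1 hx
  choose x hx using h1
  refine ⟨x, hx, fun i n hi => ?_⟩
  have h3 : Tendsto (fun m => u ((L (m + n)).getD i 0)) atTop (𝓝 (x i)) :=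
    (tendsto_add_atTop_iff_nat (f := fun n => u ((L n).getD i 0)) n).2 (hx i)
  have h4 := dist_le_of_le_geometric_two_of_tendsto₀ (hstep n i hi) h3
  simpa using h4

/-- The back-and-forth sequence. -/
def bs (ψ : (List ℕ × ℕ) ≃ (List ℕ × ℕ)) : ℕ → List ℕ × ℕ
  | 0 => ([], 0)
  | n + 1 => if n % 2 = 0 then ((bs ψ n).1 ++ [(n / 2).unpair.1], 0)
      else ψ.symm ((ψ (bs ψ n)).1 ++ [(n / 2).unpair.1], 0)

theorem bs_even (ψ : (List ℕ × ℕ) ≃ (List ℕ × ℕ)) {n : ℕ} (h : n % 2 = 0) :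
    bs ψ (n + 1) = ((bs ψ n).1 ++ [(n / 2).unpair.1], 0) := by
  simp [bs, h]

theorem bs_odd (ψ : (List ℕ × ℕ) ≃ (List ℕ × ℕ)) {n : ℕ} (h : ¬ n % 2 = 0) :
    bs ψ (n + 1) = ψ.symm ((ψ (bs ψ n)).1 ++ [(n / 2).unpair.1], 0) := by
  simp [bs, h]

theorem bs_len {ψ : (List ℕ × ℕ) ≃ (List ℕ × ℕ)} (h : ∀ t, (ψ t).1.length = t.1.length)
    (h' : ∀ t, (ψ.symm t).1.length = t.1.length) (n : ℕ) : (bs ψ n).1.length = n := by
  induction n with
  | zero => rfl
  | succ n ih =>
    by_cases hn : n % 2 = 0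
    · rw [bs_even ψ hn]
      simp [ih]
    · rw [bs_odd ψ hn, h']
      simp [h, ih]

theorem dense_of_tail {u : ℕ → U} (hu : DenseRange u) {x : ℕ → U} {C : ℝ} (par : ℕ)
    (hpar : par < 2)
    (h : ∀ n, n % 2 = par → dist (u (n / 2).unpair.1) (x n) ≤ C / 2 ^ n) : DenseRange x := by
  have h1 : range u ⊆ closure (range x) := by
    rintro _ ⟨k, rfl⟩
    rw [Metric.mem_closure_range_iff]
    intro ε hε
    have h2 : Tendsto (fun n : ℕ => C / 2 ^ n) atTop (𝓝 0) := by
      have := tendsto_pow_atTop_nhds_zero_of_lt_one (r := (1 / 2 : ℝ)) (by norm_num) (by norm_num)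
      have h4 := this.const_mul C
      simp only [mul_zero] at h4
      refine h4.congr fun n => ?_
      rw [one_div, inv_pow, div_eq_mul_inv]
    obtain ⟨N, hN⟩ := (h2.eventually_lt_const hε).exists_forall_of_atTop
    refine ⟨2 * Nat.pair k N + par, ?_⟩
    have h3 := Nat.right_le_pair k N
    have h5 := h (2 * Nat.pair k N + par) (by omega)
    have h6 : (2 * Nat.pair k N + par) / 2 = Nat.pair k N := by omega
    rw [h6, Nat.unpair_pair] at h5
    exact h5.trans_lt (hN _ (by omega))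
  intro z
  have h2 := closure_minimal h1 isClosed_closure
  exact h2 (hu z)

/-- Backward estimate: an isometry of the whole space. -/
theorem back [CompleteSpace U] {u : ℕ → U} (hu : DenseRange u) {A B : Closeds U} {η : ℝ}
    (hη : η ≤ 1 / 50) {ψ : (List ℕ × ℕ) ≃ (List ℕ × ℕ)} (h : Gd u A B η ψ)
    (h' : Gd u B A η ψ.symm) (hA : (A : Set U).Nonempty) (hB : (B : Set U).Nonempty) :
    ∃ g : U ≃ᵢ U, ∀ z, |Metric.infDist z A - Metric.infDist (g z) B| ≤ 5 * η := by
  have hη0 : 0 ≤ η := by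
    have := (abs_nonneg _).trans (h.1 (Sum.inr (Sum.inr 0)) ([], 0))
    linarith
  have hlen := bs_len h.2.1 h'.2.1
  have hlen' : ∀ n, (ψ (bs ψ n)).1.length = n := fun n => by rw [h.2.1, hlen]
  have hstep : ∀ n i, i < n → 2 ^ n * dist (u ((bs ψ n).1.getD i 0))
      (u ((bs ψ (n + 1)).1.getD i 0)) ≤ 10 * η ∧
      2 ^ n * dist (u ((ψ (bs ψ n)).1.getD i 0)) (u ((ψ (bs ψ (n + 1))).1.getD i 0)) ≤
        10 * η := by
    intro n i hi
    have key : rs u (bs ψ n).1 (bs ψ (n + 1)).1 ≤ 10 * η ∧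
        rs u (ψ (bs ψ n)).1 (ψ (bs ψ (n + 1))).1 ≤ 10 * η := by
      by_cases hn : n % 2 = 0
      · have e1 : rs u (bs ψ n).1 (bs ψ (n + 1)).1 = 0 := by
          rw [bs_even ψ hn]
          exact rs_app u _ _
        have e2 := abs_le.1 (h.2.2 (bs ψ n) (bs ψ (n + 1)) (by rw [hlen, hlen]))
        rw [e1] at e2
        rw [e1]
        constructor <;> linarith [e2.1]
      · have e1 : rs u (ψ (bs ψ n)).1 (ψ (bs ψ (n + 1))).1 = 0 := by
          rw [bs_odd ψ hn, Equiv.apply_symm_apply]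
          exact rs_app u _ _
        have e2 := abs_le.1 (h'.2.2 (ψ (bs ψ n)) (ψ (bs ψ (n + 1))) (by rw [hlen', hlen']))
        rw [e1, Equiv.symm_apply_apply, Equiv.symm_apply_apply] at e2
        rw [e1]
        constructor <;> linarith [e2.1]
    constructor
    · have := rs_small (by linarith) key.1 (i := i) (by rw [hlen]; exact hi)
      rw [hlen] at this
      exact this
    · have := rs_small (by linarith) key.2 (i := i) (by rw [hlen']; exact hi)
      rw [hlen'] at this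
      exact this
  obtain ⟨x, hx, hx'⟩ := coord_lim u (fun n => (bs ψ n).1) (fun n i hi => (hstep n i hi).1)
  obtain ⟨y, hy, hy'⟩ := coord_lim u (fun n => (ψ (bs ψ n)).1) (fun n i hi => (hstep n i hi).2)
  have hC : ∀ n : ℕ, 2 * (10 * η) / 2 ^ (n + 1) = (10 * η) / 2 ^ n := by
    intro n
    rw [pow_succ]
    field_simp
  have hdx : DenseRange x := by
    refine dense_of_tail hu (C := 10 * η) 0 (by norm_num) fun n hn => ?_
    have h1 := hx' n (n + 1) (Nat.lt_succ_self n)
    have h2 : (bs ψ (n + 1)).1.getD n 0 = (n / 2).unpair.1 := by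
      rw [bs_even ψ hn]
      have := getD_last (bs ψ n).1 (n / 2).unpair.1
      rw [hlen] at this
      exact this
    simp only [h2] at h1
    rw [hC] at h1
    exact h1
  have hdy : DenseRange y := by
    refine dense_of_tail hu (C := 10 * η) 1 (by norm_num) fun n hn => ?_
    have h1 := hy' n (n + 1) (Nat.lt_succ_self n)
    have h2 : (ψ (bs ψ (n + 1))).1.getD n 0 = (n / 2).unpair.1 := by
      rw [bs_odd ψ (by omega), Equiv.apply_symm_apply]
      have := getD_last (ψ (bs ψ n)).1 (n / 2).unpair.1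
      rw [hlen'] at this
      exact this
    simp only [h2] at h1
    rw [hC] at h1
    exact h1
  have hzero : Tendsto (fun n : ℕ => 5 * η / 2 ^ n) atTop (𝓝 0) := by
    have := tendsto_pow_atTop_nhds_zero_of_lt_one (r := (1 / 2 : ℝ)) (by norm_num) (by norm_num)
    have h4 := this.const_mul (5 * η)
    simp only [mul_zero] at h4
    refine h4.congr fun n => ?_
    rw [one_div, inv_pow, div_eq_mul_inv]
  have hdist : ∀ i j, dist (x i) (x j) = dist (y i) (y j) := by
    intro i j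
    have h1 : Tendsto (fun n => dist (u ((bs ψ n).1.getD i 0)) (u ((bs ψ n).1.getD j 0)) -
        dist (u ((ψ (bs ψ n)).1.getD i 0)) (u ((ψ (bs ψ n)).1.getD j 0))) atTop
        (𝓝 (dist (x i) (x j) - dist (y i) (y j))) :=
      ((hx i).dist (hx j)).sub ((hy i).dist (hy j))
    have h2 : Tendsto (fun n => dist (u ((bs ψ n).1.getD i 0)) (u ((bs ψ n).1.getD j 0)) -
        dist (u ((ψ (bs ψ n)).1.getD i 0)) (u ((ψ (bs ψ n)).1.getD j 0))) atTop (𝓝 0) := by
      apply squeeze_zero_norm' _ hzero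
      filter_upwards [eventually_gt_atTop (max i j)] with n hn
      rw [Real.norm_eq_abs]
      have h3 := gd_dist hη h (bs ψ n) (i := i) (j := j)
        (by rw [hlen]; exact (le_max_left _ _).trans_lt hn)
        (by rw [hlen]; exact (le_max_right _ _).trans_lt hn)
      rw [hlen, ← mul_sub, abs_mul, abs_of_pos (by positivity : (0 : ℝ) < 2 ^ n)] at h3
      rw [le_div_iff₀ (by positivity), mul_comm]
      exact h3
    have h3 := tendsto_nhds_unique h1 h2
    linarith
  obtain ⟨g, hg⟩ := iso_equiv x y hdx hdy hdist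
  refine ⟨g, fun z => ?_⟩
  have hclosed : IsClosed {z : U | |Metric.infDist z (A : Set U) -
      Metric.infDist (g z) (B : Set U)| ≤ 5 * η} := by
    apply isClosed_le _ continuous_const
    exact ((Metric.continuous_infDist_pt _).sub
      ((Metric.continuous_infDist_pt _).comp g.continuous)).abs
  have hsub : range x ⊆ {z : U | |Metric.infDist z (A : Set U) -
      Metric.infDist (g z) (B : Set U)| ≤ 5 * η} := by
    rintro _ ⟨i, rfl⟩
    show |Metric.infDist (x i) (A : Set U) - Metric.infDist (g (x i)) (B : Set U)| ≤ 5 * η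
    rw [hg]
    have h1 : Tendsto (fun n => |Metric.infDist (u ((bs ψ n).1.getD i 0)) (A : Set U) -
        Metric.infDist (u ((ψ (bs ψ n)).1.getD i 0)) (B : Set U)|) atTop
        (𝓝 |Metric.infDist (x i) (A : Set U) - Metric.infDist (y i) (B : Set U)|) :=
      ((((Metric.continuous_infDist_pt _).tendsto _).comp (hx i)).sub
        (((Metric.continuous_infDist_pt _).tendsto _).comp (hy i))).abs
    apply le_of_tendsto h1
    filter_upwards [eventually_gt_atTop i] with n hn
    exact gd_pred hη h hA hB (bs ψ n) (by rw [hlen]; exact hn)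
  exact closure_minimal hsub hclosed (hdx z)

/-- Backward estimate. -/
theorem orb_of_code [CompleteSpace U] {u : ℕ → U} (hu : DenseRange u) {A B : Closeds U} {δ : ℝ}
    (hδ : δ ≤ 1 / 100) (h : rhoGH (code u A) (code u B) < ENNReal.ofReal δ) :
    rhoOrb U A B ≤ ENNReal.ofReal (10 * δ) := by
  obtain ⟨R, h1, h2, h3⟩ := rel_of_gh h
  have k1 : ∀ x : TT, ∃ y : TT, R (enc x) (enc y) := by
    intro x
    obtain ⟨m, hm⟩ := h1 (enc x)
    exact ⟨enc.symm m, by rw [Equiv.apply_symm_apply]; exact hm⟩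
  have k2 : ∀ y : TT, ∃ x : TT, R (enc x) (enc y) := by
    intro y
    obtain ⟨m, hm⟩ := h2 (enc y)
    exact ⟨enc.symm m, by rw [Equiv.apply_symm_apply]; exact hm⟩
  have k3 : ∀ x y x' y' : TT, R (enc x) (enc y) → R (enc x') (enc y') →
      |WW u A x x' - WW u B y y'| ≤ 2 * δ := by
    intro x y x' y' e1 e2
    rw [← code_enc, ← code_enc]
    exact h3 _ _ _ _ e1 e2
  choose a ha using k1
  choose b hb using k2
  have hba : ∀ x, b (a x) = x := by
    intro x
    by_contra hne
    have e := abs_le.1 (k3 _ _ _ _ (hb (a x)) (ha x))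
    rw [WW_self, WW_ne u A hne] at e
    have := cc_mem u A (b (a x)) x
    linarith [e.2]
  have hab : ∀ y, a (b y) = y := by
    intro y
    by_contra hne
    have e := abs_le.1 (k3 _ _ _ _ (ha (b y)) (hb y))
    rw [WW_self, WW_ne u B hne] at e
    have := cc_mem u B (a (b y)) y
    linarith [e.1]
  let σ : TT ≃ TT := ⟨a, b, hba, hab⟩
  have H : ∀ x y, |WW u A x y - WW u B (σ x) (σ y)| ≤ 2 * δ := fun x y =>
    k3 _ _ _ _ (ha x) (ha y)
  have hη : 2 * δ ≤ 1 / 50 := by linarith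
  obtain ⟨ψ, hψ, hψ'⟩ := exists_gd hη H
  by_cases hA : (A : Set U).Nonempty
  · have hB := gd_empty hη hψ hA
    obtain ⟨g, hg⟩ := back hu hη hψ hψ' hA hB
    have hδ0 : 0 ≤ 10 * δ := by
      have := (abs_nonneg _).trans (hg (u 0))
      linarith
    unfold rhoOrb
    refine (iInf₂_le g (IsometryEquiv.refl U)).trans ?_
    show Metric.hausdorffEDist (g '' (A : Set U)) (id '' (B : Set U)) ≤ _
    rw [image_id]
    apply Metric.hausdorffEDist_le_of_infEDist
    · rintro _ ⟨z, hz, rfl⟩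
      have h4 := abs_le.1 (hg z)
      rw [Metric.infDist_zero_of_mem hz] at h4
      have h5 : Metric.infDist (g z) (B : Set U) ≤ 10 * δ := by linarith [h4.1]
      rw [← ENNReal.ofReal_toReal (Metric.infEDist_ne_top hB)]
      exact ENNReal.ofReal_le_ofReal h5
    · intro w hw
      have h4 := abs_le.1 (hg (g.symm w))
      rw [IsometryEquiv.apply_symm_apply, Metric.infDist_zero_of_mem hw] at h4
      have h5 : Metric.infDist (g.symm w) (A : Set U) ≤ 10 * δ := by linarith [h4.2]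
      have h6 : Metric.infDist w (g '' (A : Set U)) = Metric.infDist (g.symm w) (A : Set U) := by
        have e := Metric.infDist_image g.isometry (x := g.symm w) (t := (A : Set U))
        rw [IsometryEquiv.apply_symm_apply] at e
        exact e
      rw [← ENNReal.ofReal_toReal (Metric.infEDist_ne_top (hA.image g))]
      apply ENNReal.ofReal_le_ofReal
      show Metric.infDist w (g '' (A : Set U)) ≤ _
      rw [h6]
      exact h5
  · have hB : ¬ (B : Set U).Nonempty := fun hB => hA (gd_empty hη hψ' hB)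
    rw [not_nonempty_iff_eq_empty] at hA hB
    unfold rhoOrb
    refine (iInf₂_le (IsometryEquiv.refl U) (IsometryEquiv.refl U)).trans ?_
    rw [hA, hB, image_empty, Metric.hausdorffEDist_self]
    exact bot_le

/-- The orbit pseudometric of the isometry group of any nonempty Polish metric space is reducible
to the Gromov–Hausdorff distance. -/
theorem main_rev (U : Type) [MetricSpace U] [CompleteSpace U] [SeparableSpace U] [Nonempty U] :
    BURed (effros U) (inferInstance : MeasurableSpace Met) (rhoOrb U) rhoGH := by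
  have hu : DenseRange (TopologicalSpace.denseSeq U) := TopologicalSpace.denseRange_denseSeq U
  refine ⟨code (TopologicalSpace.denseSeq U), code_meas _, fun ε hε => ?_⟩
  refine ⟨ε / 2, min (1 / 100) (ε / 20), by positivity, lt_min (by norm_num) (by positivity),
    fun A B => ⟨fun h => ?_, fun h => ?_⟩⟩
  · obtain ⟨g, hg⟩ := mv_of_orb (by positivity) h
    refine (code_near hu (by positivity) hg).trans_lt ?_
    rw [ENNReal.ofReal_lt_ofReal_iff hε]
    linarith
  · refine (orb_of_code hu (min_le_left _ _) h).trans_lt ?_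
    rw [ENNReal.ofReal_lt_ofReal_iff hε]
    have := min_le_right (1 / 100 : ℝ) (ε / 20)
    linarith

end Pool.Agent.H655.UR
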