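import Pool.Agent.H655.UR.Ury

/-! The coding base, and decoding. -/

namespace Pool.Agent.H655.UR

open Set TopologicalSpace
open scoped ENNReal

/-- The index set `ℕ × ℕ`. -/
abbrev II : Type := ℕ × ℕ

/-- The coding base. -/
abbrev BB : Type := II ⊕ (II × II × ℚ)

/-- The metric of the coding base. -/
def dBB : BB → BB → ℚ
  | Sum.inl a, Sum.inl b => if a = b then 0 else 1
  | Sum.inl c, Sum.inr t => 10 + |t.2.2| + (if c = t.1 ∨ c = t.2.1 then 0 else 1)
  | Sum.inr t, Sum.inl c => 10 + |t.2.2| + (if c = t.1 ∨ c = t.2.1 then 0 else 1)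
  | Sum.inr t, Sum.inr u => (if t.1 = u.1 ∧ t.2.1 = u.2.1 then 0 else 3) + |(|t.2.2| - |u.2.2|)|

theorem ite_bd (p : Prop) [Decidable p] : (0 : ℚ) ≤ (if p then 0 else 1) ∧
    (if p then (0 : ℚ) else 1) ≤ 1 := by
  split_ifs <;> norm_num

theorem ite_bd3 (p : Prop) [Decidable p] : (0 : ℚ) ≤ (if p then 0 else 3) ∧
    (if p then (0 : ℚ) else 3) ≤ 3 := by
  split_ifs <;> norm_num

theorem dBB_pm : IsPM dBB := by
  refine ⟨?_, ?_, ?_⟩
  · rintro (a | t)
    · simp [dBB]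
    · simp [dBB]
  · rintro (a | t) (b | u)
    · simp only [dBB, eq_comm]
    · rfl
    · rfl
    · simp only [dBB, eq_comm, abs_sub_comm]
  · rintro (a | t) (b | u) (c | v)
    · simp only [dBB]
      by_cases h1 : a = b
      · subst h1; simp
      · rw [if_neg h1]
        have := ite_bd (a = c)
        have := ite_bd (b = c)
        linarith
    · simp only [dBB]
      by_cases h1 : a = b
      · subst h1; simp
      · rw [if_neg h1]
        have := ite_bd (a = v.1 ∨ a = v.2.1)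
        have := ite_bd (b = v.1 ∨ b = v.2.1)
        linarith
    · simp only [dBB]
      have := ite_bd (a = u.1 ∨ a = u.2.1)
      have := ite_bd (c = u.1 ∨ c = u.2.1)
      have := ite_bd (a = c)
      have := abs_nonneg u.2.2
      linarith
    · simp only [dBB]
      by_cases h1 : u.1 = v.1 ∧ u.2.1 = v.2.1
      · rw [if_pos h1, h1.1, h1.2]
        have := abs_sub_abs_le_abs_sub |v.2.2| |u.2.2|
        rw [abs_abs, abs_abs, abs_sub_comm] at this
        linarith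
      · rw [if_neg h1]
        have := ite_bd (a = v.1 ∨ a = v.2.1)
        have := ite_bd (a = u.1 ∨ a = u.2.1)
        have := abs_sub_abs_le_abs_sub |v.2.2| |u.2.2|
        rw [abs_abs, abs_abs, abs_sub_comm] at this
        linarith
    · simp only [dBB]
      by_cases h1 : b = c
      · subst h1; simp
      · rw [if_neg h1]
        have := ite_bd (c = t.1 ∨ c = t.2.1)
        have := ite_bd (b = t.1 ∨ b = t.2.1)
        linarith
    · simp only [dBB]
      have := ite_bd (b = t.1 ∨ b = t.2.1)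
      have := ite_bd (b = v.1 ∨ b = v.2.1)
      have := ite_bd3 (t.1 = v.1 ∧ t.2.1 = v.2.1)
      have h1 := abs_nonneg v.2.2
      have h2 := abs_nonneg t.2.2
      have h3 : |(|t.2.2| - |v.2.2|)| ≤ |t.2.2| + |v.2.2| := by
        rw [abs_le]; constructor <;> linarith
      linarith
    · simp only [dBB]
      by_cases h1 : t.1 = u.1 ∧ t.2.1 = u.2.1
      · rw [if_pos h1, h1.1, h1.2]
        have := abs_sub_abs_le_abs_sub |t.2.2| |u.2.2|
        rw [abs_abs, abs_abs] at this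
        linarith
      · rw [if_neg h1]
        have := ite_bd (c = t.1 ∨ c = t.2.1)
        have := ite_bd (c = u.1 ∨ c = u.2.1)
        have := abs_sub_abs_le_abs_sub |t.2.2| |u.2.2|
        rw [abs_abs, abs_abs] at this
        linarith
    · simp only [dBB]
      have h3 := abs_sub_le |t.2.2| |u.2.2| |v.2.2|
      by_cases h1 : t.1 = u.1 ∧ t.2.1 = u.2.1
      · rw [if_pos h1, h1.1, h1.2]
        linarith
      · rw [if_neg h1]
        have := ite_bd3 (t.1 = v.1 ∧ t.2.1 = v.2.1)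
        have := ite_bd3 (u.1 = v.1 ∧ u.2.1 = v.2.1)
        linarith

/-- The action of a permutation of the index set. -/
def actB (σ : Equiv.Perm II) : Equiv.Perm BB :=
  Equiv.sumCongr σ (Equiv.prodCongr σ (Equiv.prodCongr σ (Equiv.refl ℚ)))

theorem actB_inl (σ : Equiv.Perm II) (a : II) : actB σ (Sum.inl a) = Sum.inl (σ a) := rfl

theorem actB_inr (σ : Equiv.Perm II) (a b : II) (s : ℚ) :
    actB σ (Sum.inr (a, b, s)) = Sum.inr (σ a, σ b, s) := rfl

theorem dBB_act (σ : Equiv.Perm II) (x y : BB) : dBB (actB σ x) (actB σ y) = dBB x y := by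
  rcases x with a | ⟨a, b, s⟩ <;> rcases y with c | ⟨c, d, t⟩ <;>
    simp [actB_inl, actB_inr, dBB]

/-- The code set of a metric. -/
def SS (f : Met) : Set BB :=
  {x | match x with
    | Sum.inl _ => True
    | Sum.inr t => f.1 t.1.1 t.2.1.1 < (t.2.2 : ℝ)}

theorem inl_SS (f : Met) (a : II) : (Sum.inl a : BB) ∈ SS f := trivial

theorem inr_SS (f : Met) (a b : II) (s : ℚ) :
    (Sum.inr (a, b, s) : BB) ∈ SS f ↔ f.1 a.1 b.1 < (s : ℝ) := Iff.rfl

theorem Met.nonneg (f : Met) (n m : ℕ) : 0 ≤ f.1 n m := by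
  have h1 := f.2.tri n m n
  rw [(f.2.zero_iff n n).2 rfl, f.2.symm m n] at h1
  linarith

/-- Two other indices. -/
theorem two_others (a : II) : ∃ b c : II, a ≠ b ∧ a ≠ c ∧ b ≠ c := by
  refine ⟨(a.1 + 1, a.2), (a.1 + 2, a.2), ?_, ?_, ?_⟩
  · intro h
    have := congrArg Prod.fst h
    simp at this
  · intro h
    have := congrArg Prod.fst h
    simp at this
  · intro h
    have := congrArg Prod.fst h
    simp at this

theorem fresh (a b c d : II) : ∃ x : II, x ≠ a ∧ x ≠ b ∧ x ≠ c ∧ x ≠ d := by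
  obtain ⟨x, hx⟩ := Infinite.exists_notMem_finset ({a, b, c, d} : Finset II)
  simp only [Finset.mem_insert, Finset.mem_singleton, not_or] at hx
  exact ⟨x, hx⟩

theorem three_pts {x y z : ℚ} (h1 : 8 / 10 ≤ |x - y|) (h1' : |x - y| ≤ 12 / 10)
    (h2 : 8 / 10 ≤ |x - z|) (h2' : |x - z| ≤ 12 / 10)
    (h3 : 8 / 10 ≤ |y - z|) (h3' : |y - z| ≤ 12 / 10) : False := by
  rcases le_total x y with a | a <;> rcases le_total x z with b | b <;>
    rcases le_total y z with c | c
  all_goals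
    simp only [abs_of_nonneg (sub_nonneg.2 a), abs_of_nonpos (sub_nonpos.2 a),
      abs_of_nonneg (sub_nonneg.2 b), abs_of_nonpos (sub_nonpos.2 b),
      abs_of_nonneg (sub_nonneg.2 c), abs_of_nonpos (sub_nonpos.2 c)] at h1 h1' h2 h2' h3 h3'
    linarith

/-- Step 1: points are matched with points. -/
theorem dec1 {f g : Met} {N : BB → BB → Prop} {δ : ℚ} (hδ : δ ≤ 1 / 10)
    (h1 : ∀ b ∈ SS f, ∃ b' ∈ SS g, N b b')
    (h3 : ∀ b b' c c', N b b' → N c c' → |dBB b c - dBB b' c'| ≤ 2 * δ)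
    {a : II} {b' : BB} (hN : N (Sum.inl a) b') : ∃ c, b' = Sum.inl c := by
  rcases b' with c | ⟨c, d, s⟩
  · exact ⟨c, rfl⟩
  exfalso
  obtain ⟨a1, a2, h01, h02, h12⟩ := two_others a
  obtain ⟨b1, -, hb1⟩ := h1 _ (inl_SS f a1)
  obtain ⟨b2, -, hb2⟩ := h1 _ (inl_SS f a2)
  have key : ∀ x b, N (Sum.inl x) b → a ≠ x → ∃ s', b = Sum.inr (c, d, s') := by
    intro x b hb hax
    have h4 := abs_le.1 (h3 _ _ _ _ hN hb)
    rcases b with y | ⟨y, z, s'⟩
    · exfalso
      simp only [dBB, if_neg hax] at h4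
      have := ite_bd (y = c ∨ y = d)
      have := abs_nonneg s
      linarith [h4.1, h4.2]
    · by_cases hcy : c = y ∧ d = z
      · exact ⟨s', by rw [hcy.1, hcy.2]⟩
      · exfalso
        simp only [dBB, if_neg hax, if_neg hcy] at h4
        have := abs_nonneg (|s| - |s'|)
        linarith [h4.1, h4.2]
  obtain ⟨s1, rfl⟩ := key a1 b1 hb1 h01
  obtain ⟨s2, rfl⟩ := key a2 b2 hb2 h02
  have e1 := abs_le.1 (h3 _ _ _ _ hN hb1)
  have e2 := abs_le.1 (h3 _ _ _ _ hN hb2)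
  have e3 := abs_le.1 (h3 _ _ _ _ hb1 hb2)
  simp only [dBB, if_neg h01, if_neg h02, if_neg h12, and_self, if_true, zero_add] at e1 e2 e3
  exact three_pts (x := |s|) (y := |s1|) (z := |s2|) (by linarith [e1.1, e1.2]) (by linarith [e1.1, e1.2])
    (by linarith [e2.1, e2.2]) (by linarith [e2.1, e2.2])
    (by linarith [e3.1, e3.2]) (by linarith [e3.1, e3.2])

/-- Step 2: comparison of the values. -/
theorem dec2 {f g : Met} {N : BB → BB → Prop} {δ : ℚ} (hδ : δ ≤ 1 / 10) (hδ0 : 0 ≤ δ)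
    (h1 : ∀ b ∈ SS f, ∃ b' ∈ SS g, N b b')
    (h3 : ∀ b b' c c', N b b' → N c c' → |dBB b c - dBB b' c'| ≤ 2 * δ)
    (σ τ : II → II) (hσ : ∀ a, N (Sum.inl a) (Sum.inl (σ a)))
    (hτ : ∀ c, N (Sum.inl (τ c)) (Sum.inl c)) (hτσ : ∀ a, τ (σ a) = a) (hστ : ∀ c, σ (τ c) = c)
    (a b : II) : g.1 (σ a).1 (σ b).1 ≤ f.1 a.1 b.1 + 2 * δ := by
  apply le_of_forall_gt_imp_ge_of_dense
  intro r hr
  obtain ⟨s, hs1, hs2⟩ := exists_rat_btwn (show f.1 a.1 b.1 < r - 2 * δ by linarith)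
  obtain ⟨b', hb', hN⟩ := h1 (Sum.inr (a, b, s)) hs1
  have hs0 : (0 : ℝ) < s := (f.nonneg _ _).trans_lt hs1
  rcases b' with c | ⟨c, d, s'⟩
  · exfalso
    have h4 := abs_le.1 (h3 _ _ _ _ hN (hτ c))
    simp only [dBB, if_true] at h4
    have := ite_bd (τ c = a ∨ τ c = b)
    have := abs_nonneg s
    linarith [h4.1, h4.2]
  · have hs' : g.1 c.1 d.1 < (s' : ℝ) := hb'
    have hs'0 : (0 : ℝ) < s' := (g.nonneg _ _).trans_lt hs'
    have hx : ∀ x, |(10 + |s| + (if x = a ∨ x = b then (0 : ℚ) else 1)) -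
        (10 + |s'| + (if σ x = c ∨ σ x = d then (0 : ℚ) else 1))| ≤ 2 * δ := by
      intro x
      have h5 := h3 _ _ _ _ hN (hσ x)
      simp only [dBB] at h5
      exact h5
    obtain ⟨x, hxa, hxb, hxc, hxd⟩ := fresh a b (τ c) (τ d)
    have hxc' : σ x ≠ c := by
      rintro rfl
      exact hxc (hτσ x).symm
    have hxd' : σ x ≠ d := by
      rintro rfl
      exact hxd (hτσ x).symm
    have h4 := hx x
    rw [if_neg (by simp [hxa, hxb]), if_neg (by simp [hxc', hxd'])] at h4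
    have h4' := abs_le.1 h4
    have hin : ∀ y, (y = a ∨ y = b) → (σ y = c ∨ σ y = d) := by
      intro y hy
      by_contra hcon
      have h5 := hx y
      rw [if_pos hy, if_neg hcon] at h5
      have h5' := abs_le.1 h5
      linarith [h4'.1, h4'.2, h5'.1, h5'.2]
    have hin' : ∀ y, (σ y = c ∨ σ y = d) → (y = a ∨ y = b) := by
      intro y hy
      by_contra hcon
      have h5 := hx y
      rw [if_neg hcon, if_pos hy] at h5
      have h5' := abs_le.1 h5
      linarith [h4'.1, h4'.2, h5'.1, h5'.2]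
    have hval : g.1 (σ a).1 (σ b).1 = g.1 c.1 d.1 := by
      rcases hin a (Or.inl rfl) with ha | ha <;> rcases hin b (Or.inr rfl) with hb | hb
      · have hab : a = b := by rw [← hτσ a, ← hτσ b, ha, hb]
        have hd : d = c := by
          rcases hin' (τ d) (Or.inr (hστ d)) with h | h
          · rw [← hστ d, h, ha]
          · rw [← hστ d, h, hb]
        rw [ha, hb, hd]
      · rw [ha, hb]
      · rw [ha, hb, g.2.symm]
      · have hab : a = b := by rw [← hτσ a, ← hτσ b, ha, hb]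
        have hd : c = d := by
          rcases hin' (τ c) (Or.inl (hστ c)) with h | h
          · rw [← hστ c, h, ha]
          · rw [← hστ c, h, hb]
        rw [ha, hb, hd]
    rw [hval]
    have hsq : (0 : ℚ) < s := by exact_mod_cast hs0
    have hsq' : (0 : ℚ) < s' := by exact_mod_cast hs'0
    rw [abs_of_pos hsq, abs_of_pos hsq'] at h4'
    have h6 : s' ≤ s + 2 * δ := by linarith [h4'.1]
    have h7 : (s' : ℝ) ≤ s + 2 * δ := by exact_mod_cast h6
    linarith

/-- Decoding. -/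
theorem dec {f g : Met} {N : BB → BB → Prop} {δ : ℚ} (hδ : δ ≤ 1 / 10) (hδ0 : 0 ≤ δ)
    (h1 : ∀ b ∈ SS f, ∃ b' ∈ SS g, N b b')
    (h2 : ∀ b' ∈ SS g, ∃ b ∈ SS f, N b b')
    (h3 : ∀ b b' c c', N b b' → N c c' → |dBB b c - dBB b' c'| ≤ 2 * δ) :
    ∃ σ : Equiv.Perm II, ∀ a b : II, |f.1 a.1 b.1 - g.1 (σ a).1 (σ b).1| ≤ 2 * δ := by
  have h3' : ∀ b b' c c', N b' b → N c' c → |dBB b c - dBB b' c'| ≤ 2 * δ := by
    intro b b' c c' h h'
    rw [abs_sub_comm]
    exact h3 _ _ _ _ h h'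
  have e1 : ∀ a : II, ∃ c : II, N (Sum.inl a) (Sum.inl c) := by
    intro a
    obtain ⟨b', -, hb'⟩ := h1 _ (inl_SS f a)
    obtain ⟨c, rfl⟩ := dec1 hδ h1 h3 hb'
    exact ⟨c, hb'⟩
  have e2 : ∀ c : II, ∃ a : II, N (Sum.inl a) (Sum.inl c) := by
    intro c
    obtain ⟨b, -, hb⟩ := h2 _ (inl_SS g c)
    obtain ⟨a, rfl⟩ := dec1 (N := fun x y => N y x) hδ h2 h3' hb
    exact ⟨a, hb⟩
  choose σ hσ using e1
  choose τ hτ using e2
  have hτσ : ∀ a, τ (σ a) = a := by
    intro a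
    by_contra hne
    have h4 := abs_le.1 (h3 _ _ _ _ (hτ (σ a)) (hσ a))
    simp only [dBB, if_neg hne, if_true] at h4
    linarith [h4.1, h4.2]
  have hστ : ∀ c, σ (τ c) = c := by
    intro c
    by_contra hne
    have h4 := abs_le.1 (h3 _ _ _ _ (hσ (τ c)) (hτ c))
    simp only [dBB, if_neg hne, if_true] at h4
    linarith [h4.1, h4.2]
  refine ⟨⟨σ, τ, hτσ, hστ⟩, fun a b => ?_⟩
  show |f.1 a.1 b.1 - g.1 (σ a).1 (σ b).1| ≤ 2 * δ
  have k1 := dec2 hδ hδ0 h1 h3 σ τ hσ hτ hτσ hστ a b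
  have k2 := dec2 (N := fun x y => N y x) hδ hδ0 h2 h3' τ σ hτ hσ hστ hτσ (σ a) (σ b)
  rw [hτσ, hτσ] at k2
  rw [abs_le]
  constructor <;> linarith

end Pool.Agent.H655.UR
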