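import Pool.Agent.H655.UR.Main

/-! Codes of closed subsets of a Polish metric space by metrics on `ℕ`. -/

namespace Pool.Agent.H655.UR

open Set TopologicalSpace
open scoped ENNReal

/-- Truncation at `1`. -/
noncomputable def kp (v : ℝ) : ℝ := min v 1

theorem kp_le_one (v : ℝ) : kp v ≤ 1 := min_le_right _ _

theorem kp_nonneg {v : ℝ} (h : 0 ≤ v) : 0 ≤ kp v := le_min h zero_le_one

theorem kp_lip (a b : ℝ) : |kp a - kp b| ≤ |a - b| := by
  unfold kp
  have := abs_min_sub_min_le_max a 1 b 1
  simpa using this

/-- Values are determined by truncated distances to rationals. -/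
theorem kp_dec {v w θ : ℝ} (hθ : θ < 1) (h : ∀ q : ℚ, |kp (|v - q|) - kp (|w - q|)| ≤ θ) :
    |v - w| ≤ θ := by
  apply le_of_forall_pos_le_add
  intro κ hκ
  have hκ' : 0 < min (κ / 2) (1 - θ) := lt_min (by linarith) (by linarith)
  obtain ⟨q, hq1, hq2⟩ := exists_rat_btwn (show v - min (κ / 2) (1 - θ) < v by linarith)
  have h1 := h q
  have hvq : |v - q| < min (κ / 2) (1 - θ) := by
    rw [abs_of_pos (by linarith)]
    linarith
  have h2 : kp |v - q| ≤ |v - q| := min_le_left _ _
  have h3 := (abs_le.1 h1).1
  have h4 : kp |w - q| < 1 := by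
    have := hvq.trans_le (min_le_right _ _)
    linarith
  have h5 : kp |w - q| = |w - q| := by
    unfold kp at h4 ⊢
    apply min_eq_left
    by_contra hcon
    push Not at hcon
    rw [min_eq_right hcon.le] at h4
    exact lt_irrefl _ h4
  have h6 : |v - w| ≤ |v - q| + |w - q| := by
    have := abs_sub_le v q w
    rw [abs_sub_comm (q : ℝ) w] at this
    exact this
  have h7 := hvq.trans_le (min_le_left _ _)
  rw [h5] at h3
  linarith

variable {U : Type} [MetricSpace U]

/-- The truncated distance predicate. -/
noncomputable def pv (A : Closeds U) (x : U) (q : ℚ) : ℝ :=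
  open Classical in if (A : Set U).Nonempty then kp |Metric.infDist x A - q| else 1

theorem pv_mem (A : Closeds U) (x : U) (q : ℚ) : 0 ≤ pv A x q ∧ pv A x q ≤ 1 := by
  unfold pv
  split_ifs
  · exact ⟨kp_nonneg (abs_nonneg _), kp_le_one _⟩
  · norm_num

/-- Labels. -/
abbrev Lb : Type := (ℕ × ℕ × ℚ) ⊕ ((ℕ × ℚ) ⊕ ℕ)

/-- The value of a label at a tuple. -/
noncomputable def vl (u : ℕ → U) (A : Closeds U) : Lb → List ℕ → ℝ
  | Sum.inl t, s => if t.1 < s.length ∧ t.2.1 < s.length then
      kp |2 ^ s.length * dist (u (s.getD t.1 0)) (u (s.getD t.2.1 0)) - t.2.2| else 0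
  | Sum.inr (Sum.inl t), s => if t.1 < s.length then pv A (u (s.getD t.1 0)) t.2 else 0
  | Sum.inr (Sum.inr l), s => if s.length = l then 1 else 0

theorem vl_mem (u : ℕ → U) (A : Closeds U) (l : Lb) (s : List ℕ) :
    0 ≤ vl u A l s ∧ vl u A l s ≤ 1 := by
  rcases l with t | t | l
  · simp only [vl]
    split_ifs
    · exact ⟨kp_nonneg (abs_nonneg _), kp_le_one _⟩
    · norm_num
  · simp only [vl]
    split_ifs
    · exact pv_mem _ _ _
    · norm_num
  · simp only [vl]
    split_ifs <;> norm_num

/-- The restriction predicate. -/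
noncomputable def rs (u : ℕ → U) (s t : List ℕ) : ℝ :=
  kp (2 ^ s.length * ∑ i ∈ Finset.range s.length, dist (u (s.getD i 0)) (u (t.getD i 0)))

theorem rs_mem (u : ℕ → U) (s t : List ℕ) : 0 ≤ rs u s t ∧ rs u s t ≤ 1 :=
  ⟨kp_nonneg (mul_nonneg (by positivity) (Finset.sum_nonneg fun _ _ => dist_nonneg)),
    kp_le_one _⟩

/-- The points of the code. -/
abbrev TT : Type := ℕ ⊕ (List ℕ × ℕ)

theorem lb_exists : ∃ lab : ℕ → Lb, Function.Surjective lab := exists_surjective_nat Lb

/-- Enumeration of the labels. -/
noncomputable def lab : ℕ → Lb := lb_exists.choose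

theorem lab_surj : Function.Surjective lab := lb_exists.choose_spec

/-- The value between a label and a tuple. -/
noncomputable def cm (u : ℕ → U) (A : Closeds U) (m : ℕ) (s : List ℕ) : ℝ :=
  2 / 5 + 1 / 5 * vl u A (lab m) s

/-- The value between two tuples. -/
noncomputable def ct (u : ℕ → U) (s t : List ℕ) : ℝ :=
  if s.length + 1 = t.length then 7 / 10 + 1 / 10 * rs u s t
  else if t.length + 1 = s.length then 7 / 10 + 1 / 10 * rs u t s else 8 / 10

/-- The coding function. -/
noncomputable def cc (u : ℕ → U) (A : Closeds U) : TT → TT → ℝ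
  | Sum.inl m, Sum.inl m' => if m + 1 = m' ∨ m' + 1 = m then 1 else 0
  | Sum.inl m, Sum.inr t => cm u A m t.1
  | Sum.inr t, Sum.inl m => cm u A m t.1
  | Sum.inr s, Sum.inr t => ct u s.1 t.1

theorem cm_mem (u : ℕ → U) (A : Closeds U) (m : ℕ) (s : List ℕ) :
    2 / 5 ≤ cm u A m s ∧ cm u A m s ≤ 3 / 5 := by
  have := vl_mem u A (lab m) s
  unfold cm
  constructor <;> linarith

theorem ct_mem (u : ℕ → U) (s t : List ℕ) : 7 / 10 ≤ ct u s t ∧ ct u s t ≤ 8 / 10 := by
  have h1 := rs_mem u s t
  have h2 := rs_mem u t s
  unfold ct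
  split_ifs <;> constructor <;> linarith

theorem ct_symm (u : ℕ → U) (s t : List ℕ) : ct u s t = ct u t s := by
  unfold ct
  by_cases h1 : s.length + 1 = t.length
  · rw [if_pos h1, if_neg (by omega), if_pos h1]
  · by_cases h2 : t.length + 1 = s.length
    · rw [if_neg h1, if_pos h2, if_pos h2]
    · rw [if_neg h1, if_neg h2, if_neg h2, if_neg h1]

theorem cc_mem (u : ℕ → U) (A : Closeds U) (x y : TT) : 0 ≤ cc u A x y ∧ cc u A x y ≤ 1 := by
  rcases x with m | s <;> rcases y with m' | t
  · simp only [cc]
    split_ifs <;> norm_num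
  · have := cm_mem u A m t.1
    exact ⟨by simp only [cc]; linarith, by simp only [cc]; linarith⟩
  · have := cm_mem u A m' s.1
    exact ⟨by simp only [cc]; linarith, by simp only [cc]; linarith⟩
  · have := ct_mem u s.1 t.1
    exact ⟨by simp only [cc]; linarith, by simp only [cc]; linarith⟩

theorem cc_symm (u : ℕ → U) (A : Closeds U) (x y : TT) : cc u A x y = cc u A y x := by
  rcases x with m | s <;> rcases y with m' | t
  · simp only [cc, or_comm]
  · rfl
  · rfl
  · exact ct_symm u s.1 t.1

/-- The code metric on the points of the code. -/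
noncomputable def WW (u : ℕ → U) (A : Closeds U) (x y : TT) : ℝ :=
  open Classical in if x = y then 0 else 1 + cc u A x y

theorem WW_ne (u : ℕ → U) (A : Closeds U) {x y : TT} (h : x ≠ y) :
    WW u A x y = 1 + cc u A x y := if_neg h

theorem WW_self (u : ℕ → U) (A : Closeds U) (x : TT) : WW u A x x = 0 := if_pos rfl

theorem WW_symm (u : ℕ → U) (A : Closeds U) (x y : TT) : WW u A x y = WW u A y x := by
  by_cases h : x = y
  · rw [h]
  · rw [WW_ne u A h, WW_ne u A (Ne.symm h), cc_symm]

theorem WW_tri (u : ℕ → U) (A : Closeds U) (x y z : TT) :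
    WW u A x z ≤ WW u A x y + WW u A y z := by
  by_cases h1 : x = y
  · subst h1
    rw [WW_self, zero_add]
  by_cases h2 : y = z
  · subst h2
    rw [WW_self, add_zero]
  rw [WW_ne u A h1, WW_ne u A h2]
  have h3 := cc_mem u A x y
  have h4 := cc_mem u A y z
  by_cases h5 : x = z
  · subst h5
    rw [WW_self]
    linarith
  · rw [WW_ne u A h5]
    have h6 := cc_mem u A x z
    linarith

theorem tt_exists : Nonempty (TT ≃ ℕ) := nonempty_equiv_of_countable

/-- Enumeration of the points of the code. -/
noncomputable def enc : TT ≃ ℕ := tt_exists.some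

/-- The code. -/
noncomputable def code (u : ℕ → U) (A : Closeds U) : Met :=
  ⟨fun n m => WW u A (enc.symm n) (enc.symm m), by
    refine ⟨fun n m => ?_, fun n m => WW_symm _ _ _ _, fun n m k => WW_tri _ _ _ _ _⟩
    by_cases h : n = m
    · subst h
      simp [WW_self]
    · have h' : enc.symm n ≠ enc.symm m := fun e => h (enc.symm.injective e)
      rw [WW_ne u A h']
      have := cc_mem u A (enc.symm n) (enc.symm m)
      constructor
      · intro h0
        linarith
      · intro h0
        exact absurd h0 h⟩

theorem code_enc (u : ℕ → U) (A : Closeds U) (x y : TT) :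
    (code u A).1 (enc x) (enc y) = WW u A x y := by
  show WW u A (enc.symm (enc x)) (enc.symm (enc y)) = _
  rw [Equiv.symm_apply_apply, Equiv.symm_apply_apply]

/-! ### Measurability -/

theorem hit_meas {V : Set U} (hV : IsOpen V) :
    @MeasurableSet _ (effros U) {A : Closeds U | ((A : Set U) ∩ V).Nonempty} :=
  MeasurableSpace.measurableSet_generateFrom ⟨V, hV, rfl⟩

theorem pv_meas (x : U) (q : ℚ) : @Measurable _ ℝ (effros U) _ (fun A : Closeds U => pv A x q) := by
  letI := effros U
  have h1 : Measurable (fun A : Closeds U => Metric.infEDist x (A : Set U)) := by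
    apply measurable_of_Iio
    intro r
    have : (fun A : Closeds U => Metric.infEDist x (A : Set U)) ⁻¹' Iio r =
        {A : Closeds U | ((A : Set U) ∩ Metric.eball x r).Nonempty} := by
      ext A
      simp only [mem_preimage, mem_Iio, mem_setOf_eq]
      rw [Metric.infEDist_lt_iff]
      constructor
      · rintro ⟨y, hy, hxy⟩
        exact ⟨y, hy, by rw [Metric.mem_eball, edist_comm]; exact hxy⟩
      · rintro ⟨y, hy, hxy⟩
        exact ⟨y, hy, by rw [Metric.mem_eball, edist_comm] at hxy; exact hxy⟩
    rw [this]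
    exact hit_meas (V := Metric.eball x r) Metric.isOpen_eball
  have h2 : Measurable (fun A : Closeds U => Metric.infDist x (A : Set U)) := h1.ennreal_toReal
  have h3 : MeasurableSet {A : Closeds U | (A : Set U).Nonempty} := by
    have := hit_meas (U := U) isOpen_univ
    simpa using this
  unfold pv
  refine Measurable.ite h3 ?_ measurable_const
  have h4 : Measurable fun A : Closeds U => |Metric.infDist x (A : Set U) - (q : ℝ)| := by
    have h5 := h2.sub_const (q : ℝ)
    exact (continuous_abs.measurable).comp h5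
  exact h4.min measurable_const

theorem vl_meas (u : ℕ → U) (l : Lb) (s : List ℕ) :
    @Measurable _ ℝ (effros U) _ (fun A : Closeds U => vl u A l s) := by
  letI := effros U
  rcases l with t | t | l
  · simp only [vl]
    exact measurable_const
  · simp only [vl]
    by_cases h : t.1 < s.length
    · simp only [h, if_true]
      exact pv_meas _ _
    · simp only [h, if_false]
      exact measurable_const
  · simp only [vl]
    exact measurable_const

theorem WW_meas (u : ℕ → U) (x y : TT) :
    @Measurable _ ℝ (effros U) _ (fun A : Closeds U => WW u A x y) := by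
  letI := effros U
  by_cases h : x = y
  · simp only [WW, h, if_true]
    exact measurable_const
  · simp only [WW, h, if_false]
    apply Measurable.const_add
    rcases x with m | s <;> rcases y with m' | t
    · exact measurable_const
    · simp only [cc, cm]
      exact ((vl_meas u _ _).const_mul _).const_add _
    · simp only [cc, cm]
      exact ((vl_meas u _ _).const_mul _).const_add _
    · exact measurable_const

theorem code_meas (u : ℕ → U) : @Measurable (Closeds U) Met (effros U) _ (code u) := by
  letI := effros U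
  have h1 : Measurable (fun A : Closeds U => ((code u A).1 : ℕ → ℕ → ℝ)) := by
    refine measurable_pi_lambda _ fun n => measurable_pi_lambda _ fun m => ?_
    exact WW_meas u _ _
  have h2 : @Measurable (Closeds U) {f : ℕ → ℕ → ℝ // IsMet f} _ _ (fun A => code u A) :=
    h1.subtype_mk
  have h3 : (Subtype.instMeasurableSpace : MeasurableSpace {f : ℕ → ℕ → ℝ // IsMet f}) =
      borel {f : ℕ → ℕ → ℝ // IsMet f} := BorelSpace.measurable_eq
  intro S hS
  have hS' : @MeasurableSet {f : ℕ → ℕ → ℝ // IsMet f} Subtype.instMeasurableSpace S :=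
    h3 ▸ hS
  exact h2 hS'

end Pool.Agent.H655.UR
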