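import Mathlib

/-! Definitions for the comparison of the Gromov–Hausdorff distance with the orbit pseudometric
of the isometry group of the Urysohn space. -/

namespace Pool.Agent.H655.UR

open Set TopologicalSpace
open scoped ENNReal

/-- `f` is a metric on `ℕ`. -/
structure IsMet (f : ℕ → ℕ → ℝ) : Prop where
  zero_iff : ∀ n m, f n m = 0 ↔ n = m
  symm : ∀ n m, f n m = f m n
  tri : ∀ n m k, f n k ≤ f n m + f m k

/-- The space `𝓜` of all metrics on `ℕ`. -/
def Met : Type := {f : ℕ → ℕ → ℝ // IsMet f}

/-- The topology inherited from `ℝ^(ℕ × ℕ)`. -/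
instance : TopologicalSpace Met := inferInstanceAs (TopologicalSpace {f : ℕ → ℕ → ℝ // IsMet f})

/-- The Borel structure of `𝓜`. -/
instance : MeasurableSpace Met := borel Met

/-- The set `ℕ`, to be equipped with the metric `f`. -/
def Pt (_ : Met) : Type := ℕ

/-- The metric `f` on `ℕ` as a real-valued distance. -/
@[reducible] def metOf (f : Met) : MetricSpace ℕ where
  dist := f.1
  dist_self n := (f.2.zero_iff n n).2 rfl
  dist_comm := f.2.symm
  dist_triangle := f.2.tri
  eq_of_dist_eq_zero := fun h => (f.2.zero_iff _ _).1 h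

instance (f : Met) : MetricSpace (Pt f) := metOf f

/-- The Polish metric space `M_f`: the completion of `(ℕ, f)`. -/
abbrev MM (f : Met) : Type := UniformSpace.Completion (Pt f)

/-- The Gromov–Hausdorff distance between `M_f` and `M_g`: the infimum of the Hausdorff distances
between isometric copies of `M_f` and `M_g` in a common metric space. -/
noncomputable def rhoGH (f g : Met) : ℝ≥0∞ :=
  ⨅ (Z : Type) (_ : MetricSpace Z) (i : MM f → Z) (j : MM g → Z)
    (_ : Isometry i ∧ Isometry j), Metric.hausdorffEDist (range i) (range j)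

/-- `U` is the Urysohn universal Polish metric space: it is complete and separable, contains an
isometric copy of every separable metric space, and every isometry between finite subsets of `U`
extends to an isometry of `U` onto itself. -/
structure IsUrysohn (U : Type) [MetricSpace U] : Prop where
  complete : CompleteSpace U
  separable : SeparableSpace U
  universal : ∀ (X : Type) [MetricSpace X] [SeparableSpace X], ∃ F : X → U, Isometry F
  homogeneous : ∀ S : Set U, S.Finite → ∀ φ : U → U,
    (∀ x ∈ S, ∀ y ∈ S, dist (φ x) (φ y) = dist x y) → ∃ g : U ≃ᵢ U, ∀ x ∈ S, g x = φ x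

/-- The Effros–Borel structure on `F(U)`, the space of closed subsets of `U`: it is generated by
the sets of all closed sets meeting a given open set. -/
def effros (U : Type) [TopologicalSpace U] : MeasurableSpace (Closeds U) :=
  MeasurableSpace.generateFrom
    {S | ∃ V : Set U, IsOpen V ∧ S = {F : Closeds U | ((F : Set U) ∩ V).Nonempty}}

/-- The orbit pseudometric `ρ(A, B) = inf {d(gA, hB) : g, h ∈ Iso(U)}` on `F(U)`, where `d` is the
Hausdorff distance. -/
noncomputable def rhoOrb (U : Type) [MetricSpace U] (A B : Closeds U) : ℝ≥0∞ :=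
  ⨅ (g : U ≃ᵢ U) (h : U ≃ᵢ U), Metric.hausdorffEDist (g '' (A : Set U)) (h '' (B : Set U))

/-- Borel-uniformly continuous reducibility `ρX ≤_{B,u} ρY`. -/
def BURed {X Y : Type} (mX : MeasurableSpace X) (mY : MeasurableSpace Y)
    (ρX : X → X → ℝ≥0∞) (ρY : Y → Y → ℝ≥0∞) : Prop :=
  ∃ f : X → Y, @Measurable X Y mX mY f ∧ ∀ ε : ℝ, 0 < ε → ∃ δX δY : ℝ, 0 < δX ∧ 0 < δY ∧
    ∀ x y, (ρX x y < ENNReal.ofReal δX → ρY (f x) (f y) < ENNReal.ofReal ε) ∧
      (ρY (f x) (f y) < ENNReal.ofReal δY → ρX x y < ENNReal.ofReal ε)

end Pool.Agent.H655.UR
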