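import Pool.Agent.H655.UR.Code

/-! Closed sets in nearby orbits have nearby codes. -/

namespace Pool.Agent.H655.UR

open Set TopologicalSpace
open scoped ENNReal

variable {U : Type} [MetricSpace U]

/-- The isometry `g` moves `A` to within `ε` of `B`. -/
def Mv (A B : Closeds U) (g : U → U) (ε : ℝ) : Prop :=
  ((A : Set U).Nonempty ↔ (B : Set U).Nonempty) ∧
    ∀ x, (A : Set U).Nonempty → |Metric.infDist x A - Metric.infDist (g x) B| ≤ ε

theorem mv_of_orb {A B : Closeds U} {ε : ℝ} (hε : 0 < ε)
    (h : rhoOrb U A B < ENNReal.ofReal ε) : ∃ g : U ≃ᵢ U, Mv A B g ε := by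
  unfold rhoOrb at h
  rw [iInf_lt_iff] at h
  obtain ⟨u, h⟩ := h
  rw [iInf_lt_iff] at h
  obtain ⟨v, h⟩ := h
  refine ⟨u.trans v.symm, ?_, ?_⟩
  · constructor
    · intro hA
      by_contra hB
      rw [not_nonempty_iff_eq_empty] at hB
      rw [hB, image_empty, Metric.hausdorffEDist_empty (hA.image _)] at h
      exact absurd h (not_lt.2 le_top)
    · intro hB
      by_contra hA
      rw [not_nonempty_iff_eq_empty] at hA
      rw [hA, image_empty, Metric.hausdorffEDist_comm,
        Metric.hausdorffEDist_empty (hB.image _)] at h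
      exact absurd h (not_lt.2 le_top)
  · intro x hA
    have hfin : Metric.hausdorffEDist (u '' (A : Set U)) (v '' (B : Set U)) ≠ ⊤ :=
      (h.trans ENNReal.ofReal_lt_top).ne
    have hd : Metric.hausdorffDist (u '' (A : Set U)) (v '' (B : Set U)) ≤ ε := by
      unfold Metric.hausdorffDist
      exact ENNReal.toReal_le_of_le_ofReal hε.le h.le
    have e1 : Metric.infDist x A = Metric.infDist (u x) (u '' (A : Set U)) :=
      (Metric.infDist_image u.isometry).symm
    have e2 : Metric.infDist ((u.trans v.symm) x) B = Metric.infDist (u x) (v '' (B : Set U)) := by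
      rw [← Metric.infDist_image v.isometry]
      simp
    rw [e1, e2]
    have h1 := Metric.infDist_le_infDist_add_hausdorffDist (x := u x) hfin
    have hfin' : Metric.hausdorffEDist (v '' (B : Set U)) (u '' (A : Set U)) ≠ ⊤ := by
      rw [Metric.hausdorffEDist_comm]; exact hfin
    have h2 := Metric.infDist_le_infDist_add_hausdorffDist (x := u x) hfin'
    rw [Metric.hausdorffDist_comm] at h2
    rw [abs_le]
    constructor <;> linarith

/-- The tolerance. -/
noncomputable def tol (η : ℝ) (n : ℕ) : ℝ := η / (2 ^ n * (n + 1))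

theorem tol_pos {η : ℝ} (hη : 0 < η) (n : ℕ) : 0 < tol η n := by
  unfold tol
  positivity

theorem tol_mul {η : ℝ} (n : ℕ) : 2 ^ n * (n * tol η n) ≤ 2 ^ n * ((n + 1) * tol η n) ∨ η < 0 := by
  by_cases h : η < 0
  · exact Or.inr h
  · left
    have h0 : 0 ≤ tol η n := by
      unfold tol
      push Not at h
      positivity
    have : (n : ℝ) * tol η n ≤ (n + 1) * tol η n :=
      mul_le_mul_of_nonneg_right (by linarith) h0
    exact mul_le_mul_of_nonneg_left this (by positivity)

theorem tol_eq {η : ℝ} (n : ℕ) : 2 ^ n * ((n + 1) * tol η n) = η := by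
  unfold tol
  have : (n : ℝ) + 1 ≠ 0 := by positivity
  field_simp

theorem tol_one {η : ℝ} (hη : 0 < η) (n : ℕ) : 2 ^ n * tol η n ≤ η := by
  have h1 := tol_eq (η := η) n
  have h2 := tol_pos hη n
  have h3 : tol η n ≤ (n + 1) * tol η n := by nlinarith [(Nat.cast_nonneg n : (0 : ℝ) ≤ n)]
  have h4 : (2 : ℝ) ^ n * tol η n ≤ 2 ^ n * ((n + 1) * tol η n) :=
    mul_le_mul_of_nonneg_left h3 (by positivity)
  linarith

theorem tol_le {η : ℝ} (hη : 0 < η) (n : ℕ) : tol η n ≤ η := by
  have h1 := tol_one hη n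
  have h2 := tol_pos hη n
  have h3 : (1 : ℝ) ≤ 2 ^ n := one_le_pow₀ (by norm_num)
  nlinarith

theorem tol_succ {η : ℝ} (hη : 0 < η) (n : ℕ) : tol η (n + 1) ≤ tol η n := by
  unfold tol
  apply div_le_div_of_nonneg_left hη.le (by positivity)
  have h3 : (1 : ℝ) ≤ 2 ^ n := one_le_pow₀ (by norm_num)
  push_cast
  rw [pow_succ]
  have : (0 : ℝ) ≤ n := Nat.cast_nonneg n
  nlinarith

/-- Nearness of tuples. -/
def Nr (u : ℕ → U) (g : U → U) (η : ℝ) (s s' : List ℕ) : Prop :=
  s.length = s'.length ∧
    ∀ i < s.length, dist (g (u (s.getD i 0))) (u (s'.getD i 0)) ≤ tol η s.length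

theorem getD_map' (F : ℕ → ℕ) (s : List ℕ) (i : ℕ) (hi : i < s.length) :
    (s.map F).getD i 0 = F (s.getD i 0) := by
  rw [List.getD_eq_getElem _ _ (by simpa using hi), List.getD_eq_getElem _ _ hi, List.getElem_map]

theorem nr_total {u : ℕ → U} (hu : DenseRange u) (g : U ≃ᵢ U) {η : ℝ} (hη : 0 < η)
    (s : List ℕ) : ∃ s', Nr u g η s s' := by
  have h : ∀ k, ∃ k', dist (g (u k)) (u k') < tol η s.length := fun k =>
    hu.exists_dist_lt _ (tol_pos hη _)
  choose F hF using h
  refine ⟨s.map F, by simp, fun i hi => ?_⟩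
  rw [getD_map' F s i hi]
  exact (hF _).le

theorem nr_surj {u : ℕ → U} (hu : DenseRange u) (g : U ≃ᵢ U) {η : ℝ} (hη : 0 < η)
    (s' : List ℕ) : ∃ s, Nr u g η s s' := by
  have h : ∀ k', ∃ k, dist (g.symm (u k')) (u k) < tol η s'.length := fun k =>
    hu.exists_dist_lt _ (tol_pos hη _)
  choose F hF using h
  refine ⟨s'.map F, by simp, fun i hi => ?_⟩
  rw [List.length_map] at hi ⊢
  rw [getD_map' F s' i hi]
  have := hF (s'.getD i 0)
  rw [← g.isometry.dist_eq, IsometryEquiv.apply_symm_apply, dist_comm] at this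
  exact this.le

theorem nr_dist {u : ℕ → U} {g : U ≃ᵢ U} {a b a' b' : ℕ} {α β : ℝ}
    (h1 : dist (g (u a)) (u a') ≤ α) (h2 : dist (g (u b)) (u b') ≤ β) :
    |dist (u a) (u b) - dist (u a') (u b')| ≤ α + β := by
  have e : dist (u a) (u b) = dist (g (u a)) (g (u b)) := (g.isometry.dist_eq _ _).symm
  rw [e]
  have h3 := dist_triangle4 (g (u a)) (u a') (u b') (g (u b))
  have h4 := dist_triangle4 (u a') (g (u a)) (g (u b)) (u b')
  rw [dist_comm (u b') (g (u b))] at h3
  rw [dist_comm (u a') (g (u a))] at h4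
  rw [abs_le]
  constructor <;> linarith

theorem vl_near {u : ℕ → U} {g : U ≃ᵢ U} {η : ℝ} (hη : 0 < η) {A B : Closeds U}
    (hg : Mv A B g η) {s s' : List ℕ} (hs : Nr u g η s s') (l : Lb) :
    |vl u A l s - vl u B l s'| ≤ 2 * η := by
  obtain ⟨hl, hd⟩ := hs
  rcases l with t | t | l
  · simp only [vl]
    rw [← hl]
    by_cases h : t.1 < s.length ∧ t.2.1 < s.length
    · rw [if_pos h, if_pos h]
      refine (kp_lip _ _).trans ?_
      refine (abs_abs_sub_abs_le_abs_sub _ _).trans ?_
      have h1 := nr_dist (hd _ h.1) (hd _ h.2)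
      have h2 := tol_one hη s.length
      have h3 : (2 : ℝ) ^ s.length * dist (u (s.getD t.1 0)) (u (s.getD t.2.1 0)) - t.2.2 -
          (2 ^ s.length * dist (u (s'.getD t.1 0)) (u (s'.getD t.2.1 0)) - t.2.2) =
          2 ^ s.length * (dist (u (s.getD t.1 0)) (u (s.getD t.2.1 0)) -
            dist (u (s'.getD t.1 0)) (u (s'.getD t.2.1 0))) := by ring
      rw [h3, abs_mul, abs_of_pos (by positivity : (0 : ℝ) < 2 ^ s.length)]
      have h4 := mul_le_mul_of_nonneg_left h1 (by positivity : (0 : ℝ) ≤ 2 ^ s.length)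
      linarith
    · rw [if_neg h, if_neg h]
      simp [hη.le]
  · simp only [vl]
    rw [← hl]
    by_cases h : t.1 < s.length
    · rw [if_pos h, if_pos h]
      unfold pv
      by_cases hA : (A : Set U).Nonempty
      · rw [if_pos hA, if_pos (hg.1.1 hA)]
        refine (kp_lip _ _).trans ?_
        refine (abs_abs_sub_abs_le_abs_sub _ _).trans ?_
        have h1 := abs_le.1 (hg.2 (u (s.getD t.1 0)) hA)
        have h2 := hd _ h
        have h3 : |Metric.infDist (g (u (s.getD t.1 0))) (B : Set U) -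
            Metric.infDist (u (s'.getD t.1 0)) (B : Set U)| ≤
            dist (g (u (s.getD t.1 0))) (u (s'.getD t.1 0)) := by
          rw [abs_le]
          have k1 := Metric.infDist_le_infDist_add_dist (s := (B : Set U))
            (x := g (u (s.getD t.1 0))) (y := u (s'.getD t.1 0))
          have k2 := Metric.infDist_le_infDist_add_dist (s := (B : Set U))
            (y := g (u (s.getD t.1 0))) (x := u (s'.getD t.1 0))
          rw [dist_comm (u (s'.getD t.1 0))] at k2
          constructor <;> linarith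
        have h3' := abs_le.1 h3
        have h4 := tol_le hη s.length
        rw [abs_le]
        constructor <;> linarith
      · rw [if_neg hA, if_neg (fun hB => hA (hg.1.2 hB))]
        simp [hη.le]
    · rw [if_neg h, if_neg h]
      simp [hη.le]
  · simp only [vl]
    rw [← hl]
    simp [hη.le]

theorem rs_near {u : ℕ → U} {g : U ≃ᵢ U} {η : ℝ} (hη : 0 < η) {s s' t t' : List ℕ}
    (hs : Nr u g η s s') (ht : Nr u g η t t') (hst : s.length + 1 = t.length) :
    |rs u s t - rs u s' t'| ≤ 2 * η := by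
  obtain ⟨hl, hd⟩ := hs
  obtain ⟨hl', hd'⟩ := ht
  unfold rs
  rw [← hl]
  refine (kp_lip _ _).trans ?_
  rw [← mul_sub, ← Finset.sum_sub_distrib, abs_mul,
    abs_of_pos (by positivity : (0 : ℝ) < 2 ^ s.length)]
  have h1 : |∑ i ∈ Finset.range s.length, (dist (u (s.getD i 0)) (u (t.getD i 0)) -
      dist (u (s'.getD i 0)) (u (t'.getD i 0)))| ≤ s.length * (2 * tol η s.length) := by
    refine (Finset.abs_sum_le_sum_abs _ _).trans ?_
    have h2 : ∀ i ∈ Finset.range s.length, |dist (u (s.getD i 0)) (u (t.getD i 0)) -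
      dist (u (s'.getD i 0)) (u (t'.getD i 0))| ≤ 2 * tol η s.length := by
      intro i hi
      rw [Finset.mem_range] at hi
      have h3 := nr_dist (hd i hi) (hd' i (by omega))
      have h4 := tol_succ hη s.length
      rw [← hst] at h3
      linarith
    refine (Finset.sum_le_sum h2).trans ?_
    rw [Finset.sum_const, Finset.card_range, nsmul_eq_mul]
  have h5 := mul_le_mul_of_nonneg_left h1 (by positivity : (0 : ℝ) ≤ 2 ^ s.length)
  refine h5.trans ?_
  rcases tol_mul (η := η) s.length with h6 | h6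
  · have h7 := tol_eq (η := η) s.length
    have h8 : (2 : ℝ) ^ s.length * (s.length * (2 * tol η s.length)) =
        2 * (2 ^ s.length * (s.length * tol η s.length)) := by ring
    rw [h8]
    linarith
  · linarith

theorem ct_near {u : ℕ → U} {g : U ≃ᵢ U} {η : ℝ} (hη : 0 < η) {s s' t t' : List ℕ}
    (hs : Nr u g η s s') (ht : Nr u g η t t') : |ct u s t - ct u s' t'| ≤ 2 * η := by
  unfold ct
  rw [← hs.1, ← ht.1]
  by_cases h1 : s.length + 1 = t.length
  · rw [if_pos h1, if_pos h1]
    have := abs_le.1 (rs_near hη hs ht h1)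
    rw [abs_le]
    constructor <;> linarith
  · rw [if_neg h1, if_neg h1]
    by_cases h2 : t.length + 1 = s.length
    · rw [if_pos h2, if_pos h2]
      have := abs_le.1 (rs_near hη ht hs h2)
      rw [abs_le]
      constructor <;> linarith
    · rw [if_neg h2, if_neg h2]
      simp [hη.le]

/-- Forward estimate. -/
theorem code_near {u : ℕ → U} (hu : DenseRange u) {g : U ≃ᵢ U} {η : ℝ} (hη : 0 < η)
    {A B : Closeds U} (hg : Mv A B g η) : rhoGH (code u A) (code u B) ≤ ENNReal.ofReal η := by
  obtain ⟨σ, hσ⟩ := perm_of_rel (nr_total hu g hη) (nr_surj hu g hη)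
  let sg : TT ≃ TT := Equiv.sumCongr (Equiv.refl ℕ) σ
  have key : ∀ x y : TT, |WW u A x y - WW u B (sg x) (sg y)| ≤ 2 * η := by
    intro x y
    by_cases hxy : x = y
    · subst hxy
      rw [WW_self, WW_self]
      simp [hη.le]
    · have hxy' : sg x ≠ sg y := fun e => hxy (sg.injective e)
      rw [WW_ne u A hxy, WW_ne u B hxy']
      rw [show 1 + cc u A x y - (1 + cc u B (sg x) (sg y)) =
        cc u A x y - cc u B (sg x) (sg y) by ring]
      rcases x with m | s <;> rcases y with m' | t
      · show |cc u A (Sum.inl m) (Sum.inl m') - cc u B (Sum.inl m) (Sum.inl m')| ≤ 2 * η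
        simp only [cc]
        simp [hη.le]
      · show |cm u A m t.1 - cm u B m (σ t).1| ≤ 2 * η
        unfold cm
        have := abs_le.1 (vl_near hη hg (hσ t) (lab m))
        rw [abs_le]
        constructor <;> linarith
      · show |cm u A m' s.1 - cm u B m' (σ s).1| ≤ 2 * η
        unfold cm
        have := abs_le.1 (vl_near hη hg (hσ s) (lab m'))
        rw [abs_le]
        constructor <;> linarith
      · exact ct_near hη (hσ s) (hσ t)
  refine gh_of_maps (ι := TT) hη (fun x => enc x) (fun x => enc (sg x)) enc.surjective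
    (enc.surjective.comp sg.surjective) fun p q => ?_
  rw [code_enc, code_enc]
  exact key p q

end Pool.Agent.H655.UR
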