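import Pool.Agent.H655.UR.Tower
import Pool.Agent.H655.UR.BF

/-! The completed tower has the extension property, and isometries of the base extend. -/

namespace Pool.Agent.H655.UR

open Set Filter Topology

/-- A type with a rational pseudometric. -/
def QS {Z : Type} (D : Z → Z → ℚ) (_ : IsPM D) : Type := Z

/-- The real pseudometric. -/
@[reducible] noncomputable def pms {Z : Type} (D : Z → Z → ℚ) (h : IsPM D) :
    PseudoMetricSpace Z where
  dist x y := ((D x y : ℚ) : ℝ)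
  dist_self x := by
    show ((D x x : ℚ) : ℝ) = 0
    rw [h.self]; simp
  dist_comm x y := by
    show ((D x y : ℚ) : ℝ) = ((D y x : ℚ) : ℝ)
    rw [h.symm]
  dist_triangle x y z := by
    show ((D x z : ℚ) : ℝ) ≤ ((D x y : ℚ) : ℝ) + ((D y z : ℚ) : ℝ)
    exact_mod_cast h.tri x y z

noncomputable instance {Z : Type} (D : Z → Z → ℚ) (h : IsPM D) : PseudoMetricSpace (QS D h) :=
  pms D h

/-- The completion. -/
abbrev CS {Z : Type} (D : Z → Z → ℚ) (h : IsPM D) : Type := UniformSpace.Completion (QS D h)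

/-- The canonical map. -/
noncomputable def cs {Z : Type} (D : Z → Z → ℚ) (h : IsPM D) (z : Z) : CS D h :=
  UniformSpace.Completion.coe' (α := QS D h) z

theorem cs_dist {Z : Type} (D : Z → Z → ℚ) (h : IsPM D) (x y : Z) :
    dist (cs D h x) (cs D h y) = ((D x y : ℚ) : ℝ) :=
  UniformSpace.Completion.dist_eq (α := QS D h) x y

theorem cs_dense {Z : Type} (D : Z → Z → ℚ) (h : IsPM D) : DenseRange (cs D h) :=
  UniformSpace.Completion.denseRange_coe (α := QS D h)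

theorem cs_sep {Z : Type} [Countable Z] (D : Z → Z → ℚ) (h : IsPM D) :
    TopologicalSpace.SeparableSpace (CS D h) :=
  ⟨⟨range (cs D h), countable_range _, cs_dense D h⟩⟩

theorem apx_of_real {Z : Type} [Nonempty Z] (D : Z → Z → ℚ) (h : IsPM D)
    (hreal : ∀ p l, Val D (p, l) → ∃ w, ∀ q ∈ p :: l, D w q.1 = mn D p l q.1) :
    ApxP (CS D h) := by
  intro L hL ε hε
  rcases L with _ | ⟨p, l⟩
  · obtain ⟨z⟩ := (inferInstance : Nonempty Z)
    exact ⟨cs D h z, by simp⟩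
  have hη : 0 < ε / 4 := by linarith
  set η := ε / 4 with hηd
  have hc : ∀ q : CS D h × ℝ, ∃ c : Z × ℚ, dist q.1 (cs D h c.1) < η ∧
      q.2 + η < (c.2 : ℝ) ∧ (c.2 : ℝ) < q.2 + 2 * η := by
    intro q
    obtain ⟨z, hz⟩ := (cs_dense D h).exists_dist_lt q.1 hη
    obtain ⟨r, hr1, hr2⟩ := exists_rat_btwn (show q.2 + η < q.2 + 2 * η by linarith)
    exact ⟨(z, r), hz, hr1, hr2⟩
  choose c hc1 hc2 hc3 using hc
  have hD : ∀ q q' : CS D h × ℝ, |((D (c q).1 (c q').1 : ℚ) : ℝ) - dist q.1 q'.1| ≤ 2 * η := by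
    intro q q'
    rw [← cs_dist D h]
    have h1 := dist_triangle4 (cs D h (c q).1) q.1 q'.1 (cs D h (c q').1)
    have h2 := dist_triangle4 q.1 (cs D h (c q).1) (cs D h (c q').1) q'.1
    have h3 := hc1 q
    have h4 := hc1 q'
    have h5 := dist_comm q.1 (cs D h (c q).1)
    have h6 := dist_comm q'.1 (cs D h (c q').1)
    rw [abs_le]
    constructor <;> linarith
  obtain ⟨w, hw⟩ := hreal (c p) (l.map c) (by
    intro q hq q' hq'
    have e : (c p) :: l.map c = (p :: l).map c := rfl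
    simp only [e, List.mem_map] at hq hq'
    obtain ⟨q, hq, rfl⟩ := hq
    obtain ⟨q', hq', rfl⟩ := hq'
    have h1 := (abs_le.1 (hD q q')).2
    have h2 := (hL q hq q' hq').2
    have h3 := hc2 q
    have h4 := hc2 q'
    have h5 : ((D (c q).1 (c q').1 : ℚ) : ℝ) ≤ (((c q).2 + (c q').2 : ℚ) : ℝ) := by
      push_cast
      linarith
    exact_mod_cast h5)
  refine ⟨cs D h w, fun q hq => ?_⟩
  have hcq : c q ∈ c p :: l.map c := by
    have e : (c p) :: l.map c = (p :: l).map c := rfl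
    rw [e]
    exact List.mem_map.2 ⟨q, hq, rfl⟩
  have h1 := hw (c q) hcq
  have h2 : dist (cs D h w) (cs D h (c q).1) = ((mn D (c p) (l.map c) (c q).1 : ℚ) : ℝ) := by
    rw [cs_dist, h1]
  have h3 : ((mn D (c p) (l.map c) (c q).1 : ℚ) : ℝ) ≤ (c q).2 := by
    have := mn_le D (c p) (l.map c) (c q).1 (c q) hcq
    rw [h.self, add_zero] at this
    exact_mod_cast this
  have h4 : q.2 - η ≤ ((mn D (c p) (l.map c) (c q).1 : ℚ) : ℝ) := by
    obtain ⟨q', hq', e⟩ := mn_mem D (c p) (l.map c) (c q).1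
    have e' : (c p) :: l.map c = (p :: l).map c := rfl
    rw [e', List.mem_map] at hq'
    obtain ⟨q', hq', rfl⟩ := hq'
    rw [e]
    push_cast
    have h5 := (abs_le.1 (hD q' q)).1
    have h6 := hc2 q'
    have h7 := (abs_le.1 (hL q' hq' q hq).1).1
    linarith
  have h5 := dist_triangle (cs D h w) (cs D h (c q).1) q.1
  have h6 := dist_triangle (cs D h w) q.1 (cs D h (c q).1)
  have h7 := dist_comm q.1 (cs D h (c q).1)
  have h8 := hc1 q
  have h9 := hc3 q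
  rw [abs_le]
  constructor <;> linarith

section
variable {B : Type} {dB : B → B → ℚ}

/-- Good finite partial maps. -/
def Good (D : (B ⊕ ℕ) → (B ⊕ ℕ) → ℚ) (σ : B → B) (L : List ((B ⊕ ℕ) × (B ⊕ ℕ))) : Prop :=
  (∀ p ∈ L, ∀ q ∈ L, D p.1 q.1 = D p.2 q.2) ∧
    ∀ p ∈ L, ∀ b, D p.1 (Sum.inl b) = D p.2 (Sum.inl (σ b))

theorem ix_bound2 (L : List ((B ⊕ ℕ) × (B ⊕ ℕ))) : ∃ N, ∀ q ∈ L, ix q.2 ≤ N := by
  induction L with
  | nil => exact ⟨0, by simp⟩
  | cons a l ih =>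
    obtain ⟨N, hN⟩ := ih
    refine ⟨max N (ix a.2), ?_⟩
    intro q hq
    rcases List.mem_cons.1 hq with h | h
    · subst h; exact le_max_right _ _
    · exact (hN q h).trans (le_max_left _ _)

theorem good_forth [Nonempty B] {D : (B ⊕ ℕ) → (B ⊕ ℕ) → ℚ} (hD : IsPM D)
    (hbase : ∀ b b', D (Sum.inl b) (Sum.inl b') = dB b b')
    (hreal : ∀ p l, Val D (p, l) → ∀ N, ∃ w, ∀ z, ix z ≤ N → D w z = mn D p l z)
    (hsupp : ∀ z, ∃ cs : List B, ∀ b, ∃ c ∈ cs, D z (Sum.inl c) + dB c b ≤ D z (Sum.inl b))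
    (σ : Equiv.Perm B) (hσ : ∀ b b', dB (σ b) (σ b') = dB b b')
    (L : List ((B ⊕ ℕ) × (B ⊕ ℕ))) (hL : Good D σ L) (x : B ⊕ ℕ) :
    ∃ y, Good D σ ((x, y) :: L) := by
  obtain ⟨ks, hks⟩ := hsupp x
  obtain ⟨b0⟩ := (inferInstance : Nonempty B)
  obtain ⟨c0, hc0, -⟩ := hks b0
  set E : List ((B ⊕ ℕ) × (B ⊕ ℕ)) :=
    (ks.map fun c => (Sum.inl c, Sum.inl (σ c))) ++ L with hE
  have hEmem : ∀ q ∈ E, (∃ c ∈ ks, q = (Sum.inl c, Sum.inl (σ c))) ∨ q ∈ L := by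
    intro q hq
    rcases List.mem_append.1 hq with h | h
    · rw [List.mem_map] at h
      obtain ⟨c, hc, rfl⟩ := h
      exact Or.inl ⟨c, hc, rfl⟩
    · exact Or.inr h
  have hE1 : ∀ p ∈ E, ∀ q ∈ E, D p.1 q.1 = D p.2 q.2 := by
    intro p hp q hq
    rcases hEmem p hp with ⟨c, hc, rfl⟩ | hp <;> rcases hEmem q hq with ⟨c', hc', rfl⟩ | hq
    · simp only
      rw [hbase, hbase, hσ]
    · simp only
      rw [hD.symm, hD.symm (Sum.inl (σ c))]
      exact hL.2 q hq c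
    · exact hL.2 p hp c'
    · exact hL.1 p hp q hq
  have hE2 : ∀ p ∈ E, ∀ b, D p.1 (Sum.inl b) = D p.2 (Sum.inl (σ b)) := by
    intro p hp b
    rcases hEmem p hp with ⟨c, hc, rfl⟩ | hp
    · simp only
      rw [hbase, hbase, hσ]
    · exact hL.2 p hp b
  have hEne : ∃ e0 E', E = e0 :: E' := by
    rcases E with _ | ⟨e0, E'⟩
    · exfalso
      have : ((Sum.inl c0, Sum.inl (σ c0)) : (B ⊕ ℕ) × (B ⊕ ℕ)) ∈
          ([] : List ((B ⊕ ℕ) × (B ⊕ ℕ))) := by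
        rw [hE]
        exact List.mem_append_left _ (List.mem_map.2 ⟨c0, hc0, rfl⟩)
      simp at this
    · exact ⟨e0, E', rfl⟩
  obtain ⟨e0, E', hEE⟩ := hEne
  let φ : (B ⊕ ℕ) × (B ⊕ ℕ) → (B ⊕ ℕ) × ℚ := fun p => (p.2, D x p.1)
  have hlist : φ e0 :: E'.map φ = E.map φ := by rw [hEE]; rfl
  have hval : Val D (φ e0, E'.map φ) := by
    intro q hq q' hq'
    simp only [hlist, List.mem_map] at hq hq'
    obtain ⟨q, hq, rfl⟩ := hq
    obtain ⟨q', hq', rfl⟩ := hq'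
    show D q.2 q'.2 ≤ D x q.1 + D x q'.1
    rw [← hE1 q hq q' hq']
    have := hD.tri q.1 x q'.1
    rw [hD.symm q.1 x] at this
    exact this
  obtain ⟨N, hN⟩ := ix_bound2 L
  obtain ⟨w, hw⟩ := hreal _ _ hval N
  have hmle : ∀ q ∈ E, ∀ z, mn D (φ e0) (E'.map φ) z ≤ D x q.1 + D q.2 z := by
    intro q hq z
    have : φ q ∈ φ e0 :: E'.map φ := by
      rw [hlist]
      exact List.mem_map.2 ⟨q, hq, rfl⟩
    exact mn_le D (φ e0) (E'.map φ) z (φ q) this
  have hmm : ∀ z, ∃ q ∈ E, mn D (φ e0) (E'.map φ) z = D x q.1 + D q.2 z := by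
    intro z
    obtain ⟨q, hq, e⟩ := mn_mem D (φ e0) (E'.map φ) z
    rw [hlist, List.mem_map] at hq
    obtain ⟨q, hq, rfl⟩ := hq
    exact ⟨q, hq, e⟩
  have hwb : ∀ b, D x (Sum.inl b) = D w (Sum.inl (σ b)) := by
    intro b
    rw [hw _ (Nat.zero_le _)]
    apply le_antisymm
    · obtain ⟨q, hq, e⟩ := hmm (Sum.inl (σ b))
      rw [e, ← hE2 q hq b]
      exact hD.tri _ _ _
    · obtain ⟨c, hc, hp⟩ := hks b
      have hm : ((Sum.inl c, Sum.inl (σ c)) : (B ⊕ ℕ) × (B ⊕ ℕ)) ∈ E :=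
        List.mem_append_left _ (List.mem_map.2 ⟨c, hc, rfl⟩)
      have := hmle _ hm (Sum.inl (σ b))
      simp only [hbase, hσ] at this
      exact this.trans hp
  have hwL : ∀ q ∈ L, D x q.1 = D w q.2 := by
    intro q hq
    rw [hw _ (hN q hq)]
    apply le_antisymm
    · obtain ⟨q', hq', e⟩ := hmm q.2
      rw [e, ← hE1 q' hq' q (List.mem_append_right _ hq)]
      exact hD.tri _ _ _
    · have := hmle q (List.mem_append_right _ hq) q.2
      rw [hD.self, add_zero] at this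
      exact this
  refine ⟨w, ?_, ?_⟩
  · intro p hp q hq
    rcases List.mem_cons.1 hp with hp | hp <;> rcases List.mem_cons.1 hq with hq | hq
    · subst hp; subst hq
      simp [hD.self]
    · subst hp
      exact hwL q hq
    · subst hq
      rw [hD.symm p.1, hD.symm p.2]
      exact hwL p hp
    · exact hL.1 p hp q hq
  · intro p hp b
    rcases List.mem_cons.1 hp with hp | hp
    · subst hp
      exact hwb b
    · exact hL.2 p hp b

theorem good_swap {D : (B ⊕ ℕ) → (B ⊕ ℕ) → ℚ} {σ : Equiv.Perm B}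
    {L : List ((B ⊕ ℕ) × (B ⊕ ℕ))} (hL : Good D σ L) : Good D σ.symm (L.map Prod.swap) := by
  constructor
  · intro p hp q hq
    rw [List.mem_map] at hp hq
    obtain ⟨p, hp, rfl⟩ := hp
    obtain ⟨q, hq, rfl⟩ := hq
    exact (hL.1 p hp q hq).symm
  · intro p hp b
    rw [List.mem_map] at hp
    obtain ⟨p, hp, rfl⟩ := hp
    have := hL.2 p hp (σ.symm b)
    rw [Equiv.apply_symm_apply] at this
    exact this.symm

theorem good_unswap {D : (B ⊕ ℕ) → (B ⊕ ℕ) → ℚ} {σ : Equiv.Perm B}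
    {L : List ((B ⊕ ℕ) × (B ⊕ ℕ))} (hL : Good D σ.symm (L.map Prod.swap)) : Good D σ L := by
  have := good_swap hL
  rw [List.map_map, Prod.swap_swap_eq, List.map_id] at this
  exact this

theorem base_ext [Countable B] [Nonempty B] {D : (B ⊕ ℕ) → (B ⊕ ℕ) → ℚ} (hD : IsPM D)
    (hbase : ∀ b b', D (Sum.inl b) (Sum.inl b') = dB b b')
    (hreal : ∀ p l, Val D (p, l) → ∀ N, ∃ w, ∀ z, ix z ≤ N → D w z = mn D p l z)
    (hsupp : ∀ z, ∃ cs : List B, ∀ b, ∃ c ∈ cs, D z (Sum.inl c) + dB c b ≤ D z (Sum.inl b))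
    (σ : Equiv.Perm B) (hσ : ∀ b b', dB (σ b) (σ b') = dB b b') :
    ∃ e : CS D hD ≃ᵢ CS D hD, ∀ b, e (cs D hD (Sum.inl b)) = cs D hD (Sum.inl (σ b)) := by
  obtain ⟨a, ha⟩ := exists_surjective_nat (B ⊕ ℕ)
  have hσ' : ∀ b b', dB (σ.symm b) (σ.symm b') = dB b b' := by
    intro b b'
    have := hσ (σ.symm b) (σ.symm b')
    simp only [Equiv.apply_symm_apply] at this
    exact this.symm
  obtain ⟨R, -, hR1, hR2, hR⟩ := bf (Good D σ) a a [] ⟨by simp, by simp⟩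
    (fun L hL x => good_forth hD hbase hreal hsupp σ hσ L hL x)
    (by
      intro L hL y
      obtain ⟨x, hx⟩ := good_forth hD hbase hreal hsupp σ.symm hσ' _ (good_swap hL) y
      exact ⟨x, good_unswap hx⟩)
  have hR1' : ∀ z, ∃ y, (z, y) ∈ R := by
    intro z
    obtain ⟨n, rfl⟩ := ha z
    exact hR1 n
  have hR2' : ∀ z, ∃ x, (x, z) ∈ R := by
    intro z
    obtain ⟨n, rfl⟩ := ha z
    exact hR2 n
  obtain ⟨e, he⟩ := iso_equiv (ι := R) (fun i => cs D hD i.1.1) (fun i => cs D hD i.1.2)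
    ((cs_dense D hD).mono (by
      rintro _ ⟨z, rfl⟩
      obtain ⟨y, hy⟩ := hR1' z
      exact ⟨⟨_, hy⟩, rfl⟩))
    ((cs_dense D hD).mono (by
      rintro _ ⟨z, rfl⟩
      obtain ⟨x, hx⟩ := hR2' z
      exact ⟨⟨_, hx⟩, rfl⟩))
    (by
      intro i j
      obtain ⟨L, hL, hi, hj⟩ := hR i.1 i.2 j.1 j.2
      rw [cs_dist, cs_dist, hL.1 _ hi _ hj])
  refine ⟨e, fun b => ?_⟩
  obtain ⟨y, hy⟩ := hR1' (Sum.inl b)
  have h1 := he ⟨_, hy⟩
  simp only at h1
  rw [h1]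
  obtain ⟨L, hL, hi, -⟩ := hR _ hy _ hy
  have h2 := hL.2 _ hi b
  simp only [hD.self] at h2
  apply dist_eq_zero.1
  rw [cs_dist, ← h2]
  simp

/-- The whole construction. -/
theorem tower [Countable B] [Nonempty B] (hB : IsPM dB) :
    ∃ (D : (B ⊕ ℕ) → (B ⊕ ℕ) → ℚ) (hD : IsPM D), ExtP (CS D hD) ∧
      (∀ b b', D (Sum.inl b) (Sum.inl b') = dB b b') ∧
      ∀ σ : Equiv.Perm B, (∀ b b', dB (σ b) (σ b') = dB b b') →
        ∃ e : CS D hD ≃ᵢ CS D hD, ∀ b, e (cs D hD (Sum.inl b)) = cs D hD (Sum.inl (σ b)) := by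
  obtain ⟨b0⟩ := (inferInstance : Nonempty B)
  obtain ⟨f, hf⟩ := exists_surjective_nat (((B ⊕ ℕ) × ℚ) × List ((B ⊕ ℕ) × ℚ))
  let task : ℕ → ((B ⊕ ℕ) × ℚ) × List ((B ⊕ ℕ) × ℚ) := fun n => f n.unpair.1
  have htask : ∀ t N, ∃ n, N ≤ n ∧ task n = t := by
    intro t N
    obtain ⟨k, hk⟩ := hf t
    refine ⟨Nat.pair k N, Nat.right_le_pair _ _, ?_⟩
    simp [task, hk]
  have hD := DD_pm b0 task hB
  have hreal := DD_real (dB := dB) b0 task htask
  refine ⟨DD dB b0 task, hD, ?_, DD_base b0 task, ?_⟩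
  · apply ext_of_apx
    apply apx_of_real
    intro p l hv
    obtain ⟨M, hM⟩ := ix_bound (p :: l)
    obtain ⟨w, hw⟩ := hreal p l hv M
    exact ⟨w, fun q hq => hw q.1 (hM q hq)⟩
  · intro σ hσ
    exact base_ext hD (DD_base b0 task) hreal (DD_supp b0 task hB) σ hσ

theorem tower' [Countable B] [Nonempty B] (hB : IsPM dB) (U : Type) [MetricSpace U]
    [CompleteSpace U] [TopologicalSpace.SeparableSpace U] (hU : ExtP U) :
    ∃ pt : B → U, (∀ b b', dist (pt b) (pt b') = ((dB b b' : ℚ) : ℝ)) ∧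
      ∀ σ : Equiv.Perm B, (∀ b b', dB (σ b) (σ b') = dB b b') →
        ∃ h : U ≃ᵢ U, ∀ b, h (pt b) = pt (σ b) := by
  obtain ⟨D, hD, hE, hb, hs⟩ := tower hB
  haveI := cs_sep D hD
  obtain ⟨e, -⟩ := homog hE hU [] (by simp)
  refine ⟨fun b => e (cs D hD (Sum.inl b)), ?_, ?_⟩
  · intro b b'
    rw [e.isometry.dist_eq, cs_dist, hb]
  · intro σ hσ
    obtain ⟨g, hg⟩ := hs σ hσ
    refine ⟨(e.symm.trans g).trans e, fun b => ?_⟩
    simp [hg]

/-- Existence. -/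
theorem exists_ext : ∃ (U : Type) (_ : MetricSpace U), CompleteSpace U ∧
    TopologicalSpace.SeparableSpace U ∧ ExtP U := by
  have hB : IsPM (fun _ _ : Unit => (0 : ℚ)) := ⟨fun _ => rfl, fun _ _ => rfl, fun _ _ _ => by simp⟩
  obtain ⟨D, hD, hE, -⟩ := tower hB
  exact ⟨CS D hD, inferInstance, inferInstance, cs_sep D hD, hE⟩

end

end Pool.Agent.H655.UR
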