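import Mathlib

/-! Rational one-point extensions: a countable rational pseudometric space containing a given
countable one, all whose finitely supported one-point extensions are realised. -/

namespace Pool.Agent.H655.UR

open Classical

/-- A rational pseudometric. -/
structure IsPM {Z : Type} (d : Z → Z → ℚ) : Prop where
  self : ∀ x, d x x = 0
  symm : ∀ x y, d x y = d y x
  tri : ∀ x y z, d x z ≤ d x y + d y z

theorem IsPM.nonneg {Z : Type} {d : Z → Z → ℚ} (h : IsPM d) (x y : Z) : 0 ≤ d x y := by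
  have h1 := h.tri x y x
  rw [h.self, h.symm y x] at h1
  linarith

/-- The minimum of the functions `r + d x ·` over the list. -/
def mn {Z : Type} (d : Z → Z → ℚ) (p : Z × ℚ) (l : List (Z × ℚ)) (z : Z) : ℚ :=
  l.foldr (fun q m => min (q.2 + d q.1 z) m) (p.2 + d p.1 z)

theorem mn_le {Z : Type} (d : Z → Z → ℚ) (p : Z × ℚ) (l : List (Z × ℚ)) (z : Z) :
    ∀ q ∈ p :: l, mn d p l z ≤ q.2 + d q.1 z := by
  induction l with
  | nil =>
    intro q hq
    simp at hq
    subst hq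
    exact le_refl _
  | cons a l ih =>
    intro q hq
    have e : mn d p (a :: l) z = min (a.2 + d a.1 z) (mn d p l z) := rfl
    rw [e]
    rcases List.mem_cons.1 hq with h | h
    · subst h
      exact (min_le_right _ _).trans (ih _ (List.mem_cons_self))
    · rcases List.mem_cons.1 h with h | h
      · subst h
        exact min_le_left _ _
      · exact (min_le_right _ _).trans (ih _ (List.mem_cons_of_mem _ h))

theorem mn_mem {Z : Type} (d : Z → Z → ℚ) (p : Z × ℚ) (l : List (Z × ℚ)) (z : Z) :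
    ∃ q ∈ p :: l, mn d p l z = q.2 + d q.1 z := by
  induction l with
  | nil => exact ⟨p, List.mem_cons_self, rfl⟩
  | cons a l ih =>
    have e : mn d p (a :: l) z = min (a.2 + d a.1 z) (mn d p l z) := rfl
    obtain ⟨q, hq, hq'⟩ := ih
    rcases min_choice (a.2 + d a.1 z) (mn d p l z) with h | h
    · refine ⟨a, by simp, ?_⟩
      rw [e, h]
    · refine ⟨q, ?_, ?_⟩
      · rcases List.mem_cons.1 hq with h' | h'
        · subst h'
          exact List.mem_cons_self
        · exact List.mem_cons_of_mem _ (List.mem_cons_of_mem _ h')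
      · rw [e, h, hq']

/-- Weak admissibility of the data. -/
def Val {Z : Type} (d : Z → Z → ℚ) (t : (Z × ℚ) × List (Z × ℚ)) : Prop :=
  ∀ q ∈ t.1 :: t.2, ∀ q' ∈ t.1 :: t.2, d q.1 q'.1 ≤ q.2 + q'.2

theorem mn_lip {Z : Type} {d : Z → Z → ℚ} (h : IsPM d) (p : Z × ℚ) (l : List (Z × ℚ))
    (x y : Z) : mn d p l x ≤ mn d p l y + d y x := by
  obtain ⟨q, hq, e⟩ := mn_mem d p l y
  have h1 := mn_le d p l x q hq
  have h2 := h.tri q.1 y x
  linarith

theorem mn_kat {Z : Type} {d : Z → Z → ℚ} (h : IsPM d) {p : Z × ℚ} {l : List (Z × ℚ)}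
    (hv : Val d (p, l)) (x y : Z) : d x y ≤ mn d p l x + mn d p l y := by
  obtain ⟨q, hq, e⟩ := mn_mem d p l x
  obtain ⟨q', hq', e'⟩ := mn_mem d p l y
  have h1 := hv q hq q' hq'
  have h2 := h.tri x q.1 y
  have h3 := h.tri q.1 q'.1 y
  have h4 := h.symm x q.1
  linarith

theorem mn_nonneg {Z : Type} {d : Z → Z → ℚ} (h : IsPM d) {p : Z × ℚ} {l : List (Z × ℚ)}
    (hv : Val d (p, l)) (x : Z) : 0 ≤ mn d p l x := by
  have := mn_kat h hv x x
  rw [h.self] at this
  linarith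

variable {B : Type}

/-- The data actually used. -/
noncomputable def tk (b0 : B) (d : (B ⊕ ℕ) → (B ⊕ ℕ) → ℚ)
    (t : ((B ⊕ ℕ) × ℚ) × List ((B ⊕ ℕ) × ℚ)) : ((B ⊕ ℕ) × ℚ) × List ((B ⊕ ℕ) × ℚ) :=
  if Val d t then t else ((Sum.inl b0, 0), [])

theorem tk_val (b0 : B) {d : (B ⊕ ℕ) → (B ⊕ ℕ) → ℚ} (h : IsPM d) (t) : Val d (tk b0 d t) := by
  unfold tk
  split_ifs with hv
  · exact hv
  · intro q hq q' hq'
    simp at hq hq'
    subst hq; subst hq'
    simp [h.self]

/-- Redefine the point `inr n`. -/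
noncomputable def stp (b0 : B) (d : (B ⊕ ℕ) → (B ⊕ ℕ) → ℚ) (n : ℕ)
    (t : ((B ⊕ ℕ) × ℚ) × List ((B ⊕ ℕ) × ℚ)) (x y : B ⊕ ℕ) : ℚ :=
  if x = Sum.inr n then (if y = Sum.inr n then 0 else mn d (tk b0 d t).1 (tk b0 d t).2 y)
  else (if y = Sum.inr n then mn d (tk b0 d t).1 (tk b0 d t).2 x else d x y)

theorem stp_pm (b0 : B) {d : (B ⊕ ℕ) → (B ⊕ ℕ) → ℚ} (h : IsPM d) (n : ℕ) (t) :
    IsPM (stp b0 d n t) := by
  have hv := tk_val b0 h t
  have hk := fun x y => mn_kat h (p := (tk b0 d t).1) (l := (tk b0 d t).2) hv x y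
  have hl := mn_lip h (tk b0 d t).1 (tk b0 d t).2
  have h0 := fun x => mn_nonneg h (p := (tk b0 d t).1) (l := (tk b0 d t).2) hv x
  refine ⟨?_, ?_, ?_⟩
  · intro x
    unfold stp
    by_cases hx : x = Sum.inr n
    · simp [hx]
    · simp [hx, h.self]
  · intro x y
    unfold stp
    by_cases hx : x = Sum.inr n <;> by_cases hy : y = Sum.inr n <;> simp [hx, hy, h.symm x y]
  · intro x y z
    unfold stp
    by_cases hx : x = Sum.inr n <;> by_cases hy : y = Sum.inr n <;>
      by_cases hz : z = Sum.inr n <;> simp only [hx, hy, hz, if_true, if_false]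
    · simp
    · simp
    · have := h0 y; linarith
    · have := hl z y; linarith
    · simp
    · exact hk x z
    · have := hl x y
      rw [h.symm] at this
      linarith
    · exact h.tri x y z

/-- The retraction onto the base. -/
def ret (b0 : B) : B ⊕ ℕ → B
  | Sum.inl b => b
  | Sum.inr _ => b0

/-- The sequence of pseudometrics. -/
noncomputable def sq (dB : B → B → ℚ) (b0 : B)
    (task : ℕ → ((B ⊕ ℕ) × ℚ) × List ((B ⊕ ℕ) × ℚ)) : ℕ → (B ⊕ ℕ) → (B ⊕ ℕ) → ℚ
  | 0 => fun x y => dB (ret b0 x) (ret b0 y)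
  | n + 1 => stp b0 (sq dB b0 task n) n (task n)

/-- Index. -/
def ix : B ⊕ ℕ → ℕ
  | Sum.inl _ => 0
  | Sum.inr k => k + 1

section
variable {dB : B → B → ℚ} (b0 : B) (task : ℕ → ((B ⊕ ℕ) × ℚ) × List ((B ⊕ ℕ) × ℚ))

theorem sq_pm (hB : IsPM dB) (n : ℕ) : IsPM (sq dB b0 task n) := by
  induction n with
  | zero => exact ⟨fun x => hB.self _, fun x y => hB.symm _ _, fun x y z => hB.tri _ _ _⟩
  | succ n ih => exact stp_pm b0 ih n (task n)

theorem ne_of_ix {x : B ⊕ ℕ} {n : ℕ} (h : ix x ≤ n) : x ≠ Sum.inr n := by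
  rintro rfl
  simp [ix] at h

theorem sq_succ {x y : B ⊕ ℕ} {n : ℕ} (hx : ix x ≤ n) (hy : ix y ≤ n) :
    sq dB b0 task (n + 1) x y = sq dB b0 task n x y := by
  show stp b0 (sq dB b0 task n) n (task n) x y = _
  unfold stp
  simp [ne_of_ix hx, ne_of_ix hy]

theorem sq_stable {x y : B ⊕ ℕ} {n m : ℕ} (hnm : n ≤ m) (hx : ix x ≤ n) (hy : ix y ≤ n) :
    sq dB b0 task m x y = sq dB b0 task n x y := by
  induction m, hnm using Nat.le_induction with
  | base => rfl
  | succ m hm ih => rw [sq_succ b0 task (hx.trans hm) (hy.trans hm), ih]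

variable (dB) in
/-- The limit pseudometric. -/
noncomputable def DD (x y : B ⊕ ℕ) : ℚ := sq dB b0 task (max (ix x) (ix y)) x y

theorem DD_eq {x y : B ⊕ ℕ} {n : ℕ} (hx : ix x ≤ n) (hy : ix y ≤ n) :
    sq dB b0 task n x y = DD dB b0 task x y :=
  sq_stable b0 task (max_le hx hy) (le_max_left _ _) (le_max_right _ _)

theorem DD_base (b b' : B) : DD dB b0 task (Sum.inl b) (Sum.inl b') = dB b b' := rfl

theorem DD_pm (hB : IsPM dB) : IsPM (DD dB b0 task) := by
  refine ⟨fun x => (sq_pm b0 task hB _).self x, fun x y => ?_, fun x y z => ?_⟩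
  · rw [← DD_eq b0 task (le_max_left (ix x) (ix y)) (le_max_right _ _),
      ← DD_eq b0 task (le_max_right (ix x) (ix y)) (le_max_left _ _)]
    exact (sq_pm b0 task hB _).symm x y
  · have hx : ix x ≤ max (ix x) (max (ix y) (ix z)) := le_max_left _ _
    have hy : ix y ≤ max (ix x) (max (ix y) (ix z)) := (le_max_left _ _).trans (le_max_right _ _)
    have hz : ix z ≤ max (ix x) (max (ix y) (ix z)) := (le_max_right _ _).trans (le_max_right _ _)
    rw [← DD_eq b0 task hx hz, ← DD_eq b0 task hx hy, ← DD_eq b0 task hy hz]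
    exact (sq_pm b0 task hB _).tri x y z

theorem mn_congr {Z : Type} {d d' : Z → Z → ℚ} {p : Z × ℚ} {l : List (Z × ℚ)} {z : Z}
    (h : ∀ q ∈ p :: l, d q.1 z = d' q.1 z) : mn d p l z = mn d' p l z := by
  induction l with
  | nil =>
    show p.2 + d p.1 z = p.2 + d' p.1 z
    rw [h p (by simp)]
  | cons a l ih =>
    show min (a.2 + d a.1 z) (mn d p l z) = min (a.2 + d' a.1 z) (mn d' p l z)
    rw [h a (by simp), ih]
    intro q hq
    apply h
    rcases List.mem_cons.1 hq with h' | h'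
    · subst h'
      exact List.mem_cons_self
    · exact List.mem_cons_of_mem _ (List.mem_cons_of_mem _ h')

theorem ix_bound (l : List ((B ⊕ ℕ) × ℚ)) : ∃ N, ∀ q ∈ l, ix q.1 ≤ N := by
  induction l with
  | nil => exact ⟨0, by simp⟩
  | cons a l ih =>
    obtain ⟨N, hN⟩ := ih
    refine ⟨max N (ix a.1), ?_⟩
    intro q hq
    rcases List.mem_cons.1 hq with h | h
    · subst h; exact le_max_right _ _
    · exact (hN q h).trans (le_max_left _ _)

/-- Realisation of finitely supported one-point extensions. -/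
theorem DD_real (htask : ∀ t N, ∃ n, N ≤ n ∧ task n = t)
    (p : (B ⊕ ℕ) × ℚ) (l : List ((B ⊕ ℕ) × ℚ)) (hv : Val (DD dB b0 task) (p, l)) (N : ℕ) :
    ∃ w, ∀ z, ix z ≤ N → DD dB b0 task w z = mn (DD dB b0 task) p l z := by
  obtain ⟨M, hM⟩ := ix_bound (p :: l)
  obtain ⟨n, hn, ht⟩ := htask (p, l) (max N M)
  have hNn : N ≤ n := (le_max_left _ _).trans hn
  have hMn : M ≤ n := (le_max_right _ _).trans hn
  have hv' : Val (sq dB b0 task n) (p, l) := by
    intro q hq q' hq'
    rw [DD_eq b0 task ((hM q hq).trans hMn) ((hM q' hq').trans hMn)]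
    exact hv q hq q' hq'
  refine ⟨Sum.inr n, fun z hz => ?_⟩
  have hz' : ix z ≤ n := hz.trans hNn
  rw [← DD_eq b0 task (n := n + 1) (le_refl _) (hz'.trans (Nat.le_succ _))]
  show stp b0 (sq dB b0 task n) n (task n) (Sum.inr n) z = _
  unfold stp
  rw [if_pos rfl, if_neg (ne_of_ix hz'), ht]
  unfold tk
  rw [if_pos hv']
  apply mn_congr
  intro q hq
  exact DD_eq b0 task ((hM q hq).trans hMn) hz'

theorem cs_union {X : Type} {P : (B ⊕ ℕ) → B → B → Prop} (l : List ((B ⊕ ℕ) × X))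
    (h : ∀ z, ∃ cs : List B, ∀ b, ∃ c ∈ cs, P z b c) :
    ∃ cs : List B, ∀ q ∈ l, ∀ b, ∃ c ∈ cs, P q.1 b c := by
  induction l with
  | nil => exact ⟨[], by simp⟩
  | cons a l ih =>
    obtain ⟨cs, hcs⟩ := ih
    obtain ⟨cs', hcs'⟩ := h a.1
    refine ⟨cs' ++ cs, ?_⟩
    intro q hq b
    rcases List.mem_cons.1 hq with h | h
    · subst h
      obtain ⟨c, hc, hp⟩ := hcs' b
      exact ⟨c, List.mem_append_left _ hc, hp⟩
    · obtain ⟨c, hc, hp⟩ := hcs q h b
      exact ⟨c, List.mem_append_right _ hc, hp⟩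

theorem sq_supp (hB : IsPM dB) (n : ℕ) : ∀ z : B ⊕ ℕ, ∃ cs : List B, ∀ b, ∃ c ∈ cs,
    sq dB b0 task n z (Sum.inl c) + dB c b ≤ sq dB b0 task n z (Sum.inl b) := by
  induction n with
  | zero =>
    intro z
    refine ⟨[ret b0 z], fun b => ⟨ret b0 z, by simp, ?_⟩⟩
    show dB (ret b0 z) (ret b0 z) + dB (ret b0 z) b ≤ dB (ret b0 z) b
    rw [hB.self]
    simp
  | succ n ih =>
    intro z
    by_cases hz : z = Sum.inr n
    · subst hz
      obtain ⟨cs, hcs⟩ := cs_union ((tk b0 (sq dB b0 task n) (task n)).1 ::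
        (tk b0 (sq dB b0 task n) (task n)).2) ih
      refine ⟨cs, fun b => ?_⟩
      have key : ∀ b : B, sq dB b0 task (n + 1) (Sum.inr n) (Sum.inl b) =
          mn (sq dB b0 task n) (tk b0 (sq dB b0 task n) (task n)).1
            (tk b0 (sq dB b0 task n) (task n)).2 (Sum.inl b) := by
        intro b
        show stp b0 (sq dB b0 task n) n (task n) (Sum.inr n) (Sum.inl b) = _
        unfold stp
        rw [if_pos rfl, if_neg (by simp)]
      obtain ⟨q, hq, e⟩ := mn_mem (sq dB b0 task n) (tk b0 (sq dB b0 task n) (task n)).1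
            (tk b0 (sq dB b0 task n) (task n)).2 (Sum.inl b)
      obtain ⟨c, hc, hp⟩ := hcs q hq b
      refine ⟨c, hc, ?_⟩
      rw [key, key, e]
      have := mn_le (sq dB b0 task n) (tk b0 (sq dB b0 task n) (task n)).1
            (tk b0 (sq dB b0 task n) (task n)).2 (Sum.inl c) q hq
      linarith
    · obtain ⟨cs, hcs⟩ := ih z
      refine ⟨cs, fun b => ?_⟩
      obtain ⟨c, hc, hp⟩ := hcs b
      refine ⟨c, hc, ?_⟩
      have key : ∀ b : B, sq dB b0 task (n + 1) z (Sum.inl b) =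
          sq dB b0 task n z (Sum.inl b) := by
        intro b
        show stp b0 (sq dB b0 task n) n (task n) z (Sum.inl b) = _
        unfold stp
        rw [if_neg hz, if_neg (by simp)]
      rw [key, key]
      exact hp

/-- Every point is finitely supported over the base. -/
theorem DD_supp (hB : IsPM dB) (z : B ⊕ ℕ) : ∃ cs : List B, ∀ b, ∃ c ∈ cs,
    DD dB b0 task z (Sum.inl c) + dB c b ≤ DD dB b0 task z (Sum.inl b) := by
  obtain ⟨cs, hcs⟩ := sq_supp b0 task hB (ix z) z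
  refine ⟨cs, fun b => ?_⟩
  obtain ⟨c, hc, hp⟩ := hcs b
  refine ⟨c, hc, ?_⟩
  rw [DD_eq b0 task (le_refl _) (Nat.zero_le _), DD_eq b0 task (le_refl _) (Nat.zero_le _)] at hp
  exact hp

end

end Pool.Agent.H655.UR
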