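import Pool.Agent.H655.UR.Defs
import Pool.Agent.H655.UR.Space

/-! The Urysohn space: universality and ultrahomogeneity versus the extension property. -/

namespace Pool.Agent.H655.UR

open Set TopologicalSpace
open scoped ENNReal

theorem kat_zero {X : Type} [MetricSpace X] {L : List (X × ℝ)} (hL : Kat L)
    {p : X × ℝ} (hp : p ∈ L) (h0 : p.2 ≤ 0) : ∃ u, ∀ q ∈ L, dist u q.1 = q.2 := by
  have h1 := (hL p hp p hp).2
  rw [dist_self] at h1
  have h2 : p.2 = 0 := by linarith
  refine ⟨p.1, fun q hq => ?_⟩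
  have h3 := hL p hp q hq
  rw [h2] at h3
  have h4 := (abs_le.1 h3.1).1
  linarith [h3.2]

/-- Distance on `Option S`. -/
def od {X : Type} [MetricSpace X] {S : Set X} (φ : S → ℝ) : Option S → Option S → ℝ
  | none, none => 0
  | none, some x => φ x
  | some x, none => φ x
  | some x, some y => dist x y

/-- The one-point extension metric space. -/
@[reducible] def omet {X : Type} [MetricSpace X] {S : Set X} (φ : S → ℝ)
    (h : ∀ x y : S, |φ x - φ y| ≤ dist x y ∧ dist x y ≤ φ x + φ y) (hpos : ∀ x, 0 < φ x) :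
    MetricSpace (Option S) where
  dist := od φ
  dist_self x := by
    rcases x with _ | x
    · rfl
    · exact dist_self x
  dist_comm x y := by
    rcases x with _ | x <;> rcases y with _ | y
    · rfl
    · rfl
    · rfl
    · exact dist_comm x y
  dist_triangle x y z := by
    rcases x with _ | x <;> rcases y with _ | y <;> rcases z with _ | z
    · show (0 : ℝ) ≤ 0 + 0
      simp
    · show φ z ≤ 0 + φ z
      simp
    · show (0 : ℝ) ≤ φ y + φ y
      linarith [hpos y]
    · show φ z ≤ φ y + dist y z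
      linarith [(abs_le.1 (h y z).1).1]
    · show φ x ≤ φ x + 0
      simp
    · show dist x z ≤ φ x + φ z
      exact (h x z).2
    · show φ x ≤ dist x y + φ y
      linarith [(abs_le.1 (h x y).1).2]
    · exact dist_triangle x y z
  eq_of_dist_eq_zero := by
    intro x y hxy
    rcases x with _ | x <;> rcases y with _ | y
    · rfl
    · exfalso
      have h1 : φ y = 0 := hxy
      linarith [hpos y]
    · exfalso
      have h1 : φ x = 0 := hxy
      linarith [hpos x]
    · have h1 : dist x y = 0 := hxy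
      rw [dist_eq_zero] at h1
      rw [h1]

theorem extP_of_urysohn {U : Type} [MetricSpace U] (hU : IsUrysohn U) : ExtP U := by
  intro L hL
  by_cases hpos : ∀ p ∈ L, 0 < p.2
  swap
  · push Not at hpos
    obtain ⟨p, hp, hp0⟩ := hpos
    exact kat_zero hL hp hp0
  let S : Set U := {x | ∃ r, (x, r) ∈ L}
  have hSf : S.Finite := by
    refine (List.finite_toSet (L.map Prod.fst)).subset ?_
    rintro x ⟨r, hr⟩
    exact List.mem_map.2 ⟨(x, r), hr, rfl⟩
  have hS : ∀ x : S, ∃ r, (x.1, r) ∈ L := fun x => x.2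
  choose φ hφ using hS
  have hφ' : ∀ p, ∀ hp : p ∈ L, φ ⟨p.1, ⟨p.2, hp⟩⟩ = p.2 := by
    intro p hp
    have h1 := (hL _ (hφ ⟨p.1, ⟨p.2, hp⟩⟩) p hp).1
    simp only [dist_self] at h1
    have h2 := abs_nonpos_iff.1 h1
    linarith
  letI : MetricSpace (Option S) := omet φ (fun x y => hL _ (hφ x) _ (hφ y))
    (fun x => hpos _ (hφ x))
  haveI : Finite S := hSf
  haveI : Countable (Option S) := inferInstance
  haveI : SeparableSpace (Option S) := inferInstance
  obtain ⟨F, hF⟩ := hU.universal (Option S)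
  classical
  let ψ : U → U := fun y => if h : ∃ x : S, F (some x) = y then (h.choose : U) else y
  have hψ : ∀ x : S, ψ (F (some x)) = x := by
    intro x
    have h : ∃ x' : S, F (some x') = F (some x) := ⟨x, rfl⟩
    have h1 : ψ (F (some x)) = h.choose := dif_pos h
    rw [h1]
    have h2 := hF.injective h.choose_spec
    rw [Option.some_injective _ h2]
  obtain ⟨g, hg⟩ := hU.homogeneous (range fun x : S => F (some x)) (finite_range _) ψ (by
    rintro _ ⟨x, rfl⟩ _ ⟨y, rfl⟩
    simp only
    rw [hψ, hψ, hF.dist_eq]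
    rfl)
  refine ⟨g (F none), fun p hp => ?_⟩
  have h1 : g (F (some ⟨p.1, ⟨p.2, hp⟩⟩)) = p.1 := by
    rw [hg _ ⟨_, rfl⟩, hψ]
  have h2 : dist (g (F none)) (g (F (some ⟨p.1, ⟨p.2, hp⟩⟩))) = p.2 := by
    rw [g.isometry.dist_eq, hF.dist_eq]
    exact hφ' p hp
  rw [h1] at h2
  exact h2

theorem urysohn_of_extP {U : Type} [MetricSpace U] [hc : CompleteSpace U] [hs : SeparableSpace U]
    (hE : ExtP U) : IsUrysohn U := by
  refine ⟨hc, hs, ?_, ?_⟩
  · intro X _ _
    exact univ_of_ext hE
  · intro S hS φ hφ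
    obtain ⟨e, he⟩ := homog hE hE (hS.toFinset.toList.map fun x => (x, φ x)) (by
      intro p hp q hq
      rw [List.mem_map] at hp hq
      obtain ⟨p, hp, rfl⟩ := hp
      obtain ⟨q, hq, rfl⟩ := hq
      rw [Finset.mem_toList, Set.Finite.mem_toFinset] at hp hq
      exact (hφ p hp q hq).symm)
    refine ⟨e, fun x hx => ?_⟩
    refine he (x, φ x) (List.mem_map.2 ⟨x, ?_, rfl⟩)
    rw [Finset.mem_toList, Set.Finite.mem_toFinset]
    exact hx

theorem exists_urysohn : ∃ (U : Type) (_ : MetricSpace U), IsUrysohn U := by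
  obtain ⟨U, _, hc, hs, hE⟩ := exists_ext
  exact ⟨U, inferInstance, urysohn_of_extP hE⟩

theorem urysohn_unique {U V : Type} [MetricSpace U] [MetricSpace V] (hU : IsUrysohn U)
    (hV : IsUrysohn V) : Nonempty (U ≃ᵢ V) := by
  haveI := hU.complete
  haveI := hU.separable
  haveI := hV.complete
  haveI := hV.separable
  obtain ⟨e, -⟩ := homog (extP_of_urysohn hU) (extP_of_urysohn hV) [] (by simp)
  exact ⟨e⟩

end Pool.Agent.H655.UR
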